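import Mathlib

/-!
# Van der Corput's lemma with an amplitude
-/

set_option autoImplicit false

open MeasureTheory Set Complex

noncomputable section

namespace Pool.Agent.LE.H28V

/-- the first derivative test -/
theorem vdc1 {F F1 F2 : ℝ → ℝ} {a b lam : ℝ} (hab : a ≤ b)
    (hF : ∀ x ∈ Icc a b, HasDerivAt F (F1 x) x) (hF1 : ∀ x ∈ Icc a b, HasDerivAt F1 (F2 x) x)
    (hF2 : ContinuousOn F2 (Icc a b)) (hs : ∀ x ∈ Icc a b, 0 ≤ F2 x) (hlam : 0 < lam)
    (h1 : ∀ x ∈ Icc a b, lam ≤ |F1 x|) :
    ‖∫ x in a..b, cexp (I * F x)‖ ≤ 4 / lam := by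
  have huI : uIcc a b = Icc a b := uIcc_of_le hab
  have hne : ∀ x ∈ Icc a b, F1 x ≠ 0 := by
    intro x hx h0
    have := h1 x hx
    rw [h0, abs_zero] at this
    exact absurd this (not_le.2 hlam)
  have hneC : ∀ x ∈ Icc a b, (F1 x : ℂ) ≠ 0 := fun x hx => by exact_mod_cast hne x hx
  have hcF : ContinuousOn F (Icc a b) := fun x hx => (hF x hx).continuousAt.continuousWithinAt
  have hcF1 : ContinuousOn F1 (Icc a b) := fun x hx =>
    (hF1 x hx).continuousAt.continuousWithinAt
  set u : ℝ → ℂ := fun x => -I * (F1 x : ℂ)⁻¹ with hu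
  set u' : ℝ → ℂ := fun x => -I * (-(F2 x : ℂ) / (F1 x : ℂ) ^ 2) with hu'
  set v : ℝ → ℂ := fun x => cexp (I * F x) with hv
  set v' : ℝ → ℂ := fun x => cexp (I * F x) * (I * F1 x) with hv'
  have hdu : ∀ x ∈ uIcc a b, HasDerivAt u (u' x) x := by
    intro x hx
    rw [huI] at hx
    exact ((hF1 x hx).ofReal_comp.fun_inv (hneC x hx)).const_mul _
  have hdv : ∀ x ∈ uIcc a b, HasDerivAt v (v' x) x := by
    intro x hx
    rw [huI] at hx
    exact ((hF x hx).ofReal_comp.const_mul I).cexp
  have hcv : ContinuousOn v (Icc a b) := by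
    have := Complex.continuous_exp.comp_continuousOn
      (continuousOn_const.mul (Complex.continuous_ofReal.comp_continuousOn hcF) :
        ContinuousOn (fun x => I * (F x : ℂ)) (Icc a b))
    exact this
  have hcu' : ContinuousOn u' (Icc a b) := by
    refine continuousOn_const.mul ((Complex.continuous_ofReal.comp_continuousOn hF2).neg.div
      ((Complex.continuous_ofReal.comp_continuousOn hcF1).pow 2) ?_)
    intro x hx
    exact pow_ne_zero 2 (hneC x hx)
  have hcv' : ContinuousOn v' (Icc a b) :=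
    hcv.mul (continuousOn_const.mul (Complex.continuous_ofReal.comp_continuousOn hcF1))
  have key := intervalIntegral.integral_mul_deriv_eq_deriv_mul hdu hdv
    (ContinuousOn.intervalIntegrable (huI ▸ hcu')) (ContinuousOn.intervalIntegrable (huI ▸ hcv'))
  have e1 : ∫ x in a..b, u x * v' x = ∫ x in a..b, v x := by
    refine intervalIntegral.integral_congr fun x hx => ?_
    rw [huI] at hx
    have := hneC x hx
    simp only [hu, hv', hv]
    field_simp
    ring_nf
    rw [I_sq]
    ring
  rw [e1] at key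
  change ‖∫ x in a..b, v x‖ ≤ _
  rw [key]
  have hnv : ∀ x, ‖v x‖ = 1 := by
    intro x
    simp only [hv]
    rw [mul_comm, Complex.norm_exp_ofReal_mul_I]
  have hnu : ∀ x ∈ Icc a b, ‖u x‖ ≤ 1 / lam := by
    intro x hx
    simp only [hu]
    rw [norm_mul, norm_neg, norm_I, one_mul, norm_inv, Complex.norm_real, Real.norm_eq_abs,
      ← one_div]
    exact one_div_le_one_div_of_le hlam (h1 x hx)
  have hcg : ContinuousOn (fun x => F2 x / F1 x ^ 2) (Icc a b) :=
    hF2.div (hcF1.pow 2) fun x hx => pow_ne_zero 2 (hne x hx)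
  have e2 : ∫ x in a..b, F2 x / F1 x ^ 2 = -(F1 b)⁻¹ - -(F1 a)⁻¹ := by
    refine intervalIntegral.integral_eq_sub_of_hasDerivAt (f := fun x => -(F1 x)⁻¹) ?_
      (ContinuousOn.intervalIntegrable (huI ▸ hcg))
    intro x hx
    rw [huI] at hx
    have := ((hF1 x hx).fun_inv (hne x hx)).fun_neg
    have e : -(-F2 x / F1 x ^ 2) = F2 x / F1 x ^ 2 := by ring
    rwa [e] at this
  have h3 : ‖∫ x in a..b, u' x * v x‖ ≤ 2 / lam := by
    refine (intervalIntegral.norm_integral_le_integral_norm hab).trans ?_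
    have e3 : ∫ x in a..b, ‖u' x * v x‖ = ∫ x in a..b, F2 x / F1 x ^ 2 := by
      refine intervalIntegral.integral_congr fun x hx => ?_
      rw [huI] at hx
      rw [norm_mul, hnv, mul_one]
      simp only [hu']
      rw [norm_mul, norm_neg, norm_I, one_mul, norm_div, norm_neg, norm_pow, Complex.norm_real,
        Complex.norm_real, Real.norm_eq_abs, Real.norm_eq_abs, abs_of_nonneg (hs x hx), sq_abs]
    rw [e3, e2]
    have ha := abs_le.1 (show |(F1 a)⁻¹| ≤ 1 / lam by
      rw [abs_inv, ← one_div]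
      exact one_div_le_one_div_of_le hlam (h1 a (left_mem_Icc.2 hab)))
    have hb := abs_le.1 (show |(F1 b)⁻¹| ≤ 1 / lam by
      rw [abs_inv, ← one_div]
      exact one_div_le_one_div_of_le hlam (h1 b (right_mem_Icc.2 hab)))
    have e4 : 2 / lam = 1 / lam + 1 / lam := by ring
    rw [e4]
    linarith
  calc ‖u b * v b - u a * v a - ∫ x in a..b, u' x * v x‖
      ≤ ‖u b * v b‖ + ‖u a * v a‖ + ‖∫ x in a..b, u' x * v x‖ :=
        (norm_sub_le _ _).trans (add_le_add (norm_sub_le _ _) le_rfl)
    _ ≤ 1 / lam + 1 / lam + 2 / lam := by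
        rw [norm_mul (u b), norm_mul (u a), hnv, hnv, mul_one, mul_one]
        exact add_le_add (add_le_add (hnu b (right_mem_Icc.2 hab)) (hnu a (left_mem_Icc.2 hab))) h3
    _ = 4 / lam := by ring

/-- the integral of a bounded function over a short interval -/
theorem norm_int_le {F : ℝ → ℝ} {a b : ℝ} (hab : a ≤ b) :
    ‖∫ x in a..b, cexp (I * F x)‖ ≤ b - a := by
  have := intervalIntegral.norm_integral_le_of_norm_le_const (a := a) (b := b) (C := 1)
    (f := fun x => cexp (I * F x)) (fun x _ => by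
      rw [mul_comm, Complex.norm_exp_ofReal_mul_I])
  rw [one_mul, abs_of_nonneg (sub_nonneg.2 hab)] at this
  exact this

/-- the second derivative test -/
theorem vdc2 {F F1 F2 : ℝ → ℝ} {a b mu : ℝ} (hab : a ≤ b)
    (hF : ∀ x ∈ Icc a b, HasDerivAt F (F1 x) x) (hF1 : ∀ x ∈ Icc a b, HasDerivAt F1 (F2 x) x)
    (hF2 : ContinuousOn F2 (Icc a b)) (hmu : 0 < mu) (hs : ∀ x ∈ Icc a b, mu ≤ F2 x) :
    ‖∫ x in a..b, cexp (I * F x)‖ ≤ 8 / Real.sqrt mu := by
  have hcF : ContinuousOn F (Icc a b) := fun x hx => (hF x hx).continuousAt.continuousWithinAt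
  have hcF1 : ContinuousOn F1 (Icc a b) := fun x hx =>
    (hF1 x hx).continuousAt.continuousWithinAt
  -- growth of the derivative
  have hgr : ∀ x ∈ Icc a b, ∀ y ∈ Icc a b, x ≤ y → mu * (y - x) ≤ F1 y - F1 x := by
    intro x hx y hy hxy
    refine (convex_Icc a b).mul_sub_le_image_sub_of_le_deriv hcF1 ?_ ?_ x hx y hy hxy
    · intro z hz
      rw [interior_Icc] at hz
      exact (hF1 z (Ioo_subset_Icc_self hz)).differentiableAt.differentiableWithinAt
    · intro z hz
      rw [interior_Icc] at hz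
      rw [(hF1 z (Ioo_subset_Icc_self hz)).deriv]
      exact hs z (Ioo_subset_Icc_self hz)
  -- the centre
  obtain ⟨x₀, hx₀, hr, hl⟩ : ∃ x₀ ∈ Icc a b, (∀ x ∈ Icc a b, x₀ < x → mu * (x - x₀) ≤ F1 x) ∧
      (∀ x ∈ Icc a b, x < x₀ → F1 x ≤ -(mu * (x₀ - x))) := by
    by_cases h0 : 0 ≤ F1 a
    · refine ⟨a, left_mem_Icc.2 hab, fun x hx h => ?_, fun x hx h => absurd hx.1 (not_le.2 h)⟩
      have := hgr a (left_mem_Icc.2 hab) x hx h.le
      linarith
    by_cases h0b : F1 b ≤ 0
    · refine ⟨b, right_mem_Icc.2 hab, fun x hx h => absurd hx.2 (not_le.2 h), fun x hx h => ?_⟩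
      have := hgr x hx b (right_mem_Icc.2 hab) h.le
      linarith
    push Not at h0 h0b
    obtain ⟨x₀, hx₀, hz⟩ := intermediate_value_Icc hab hcF1 (show (0 : ℝ) ∈ Icc (F1 a) (F1 b) from
      ⟨h0.le, h0b.le⟩)
    refine ⟨x₀, hx₀, fun x hx h => ?_, fun x hx h => ?_⟩
    · have := hgr x₀ hx₀ x hx h.le
      linarith
    · have := hgr x hx x₀ hx₀ h.le
      linarith
  set s := Real.sqrt mu with hs'
  have hs0 : 0 < s := Real.sqrt_pos.2 hmu
  have hss : s * s = mu := Real.mul_self_sqrt hmu.le
  set δ := 2 / s with hδ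
  have hδ0 : 0 < δ := by positivity
  have hmd : mu * δ = 2 * s := by
    rw [hδ, ← hss]
    field_simp
  set c := max a (x₀ - δ) with hc
  set e := min b (x₀ + δ) with he
  have hac : a ≤ c := le_max_left _ _
  have hcx : c ≤ x₀ := max_le hx₀.1 (by linarith)
  have hxe : x₀ ≤ e := le_min hx₀.2 (by linarith)
  have heb : e ≤ b := min_le_left _ _
  have hce : c ≤ e := hcx.trans hxe
  have hcv : ContinuousOn (fun x => cexp (I * F x)) (Icc a b) :=
    Complex.continuous_exp.comp_continuousOn
      (continuousOn_const.mul (Complex.continuous_ofReal.comp_continuousOn hcF) :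
        ContinuousOn (fun x => I * (F x : ℂ)) (Icc a b))
  have hint : ∀ p q : ℝ, a ≤ p → p ≤ q → q ≤ b →
      IntervalIntegrable (fun x => cexp (I * F x)) volume p q := by
    intro p q h1 h2 h3
    apply ContinuousOn.intervalIntegrable
    rw [uIcc_of_le h2]
    exact hcv.mono (Icc_subset_Icc h1 h3)
  have hsplit : ∫ x in a..b, cexp (I * F x) = (∫ x in a..c, cexp (I * F x)) +
      (∫ x in c..e, cexp (I * F x)) + ∫ x in e..b, cexp (I * F x) := by
    rw [intervalIntegral.integral_add_adjacent_intervals (hint a c le_rfl hac (hce.trans heb))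
      (hint c e hac hce heb),
      intervalIntegral.integral_add_adjacent_intervals (hint a e le_rfl (hac.trans hce) heb)
      (hint e b (hac.trans hce) heb le_rfl)]
  have hsub : ∀ p q : ℝ, a ≤ p → q ≤ b → ∀ x ∈ Icc p q, x ∈ Icc a b := fun p q h1 h2 x hx =>
    ⟨h1.trans hx.1, hx.2.trans h2⟩
  -- the left part
  have h1 : ‖∫ x in a..c, cexp (I * F x)‖ ≤ 2 / s := by
    rcases eq_or_lt_of_le hac with h | h
    · rw [← h, intervalIntegral.integral_same, norm_zero]
      positivity
    · have hc2 : c = x₀ - δ := by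
        rcases max_choice a (x₀ - δ) with h' | h'
        · rw [← hc] at h'
          linarith
        · exact h'
      have := vdc1 (lam := 2 * s) hac (fun x hx => hF x (hsub a c le_rfl (hce.trans heb) x hx))
        (fun x hx => hF1 x (hsub a c le_rfl (hce.trans heb) x hx))
        (hF2.mono (fun x hx => hsub a c le_rfl (hce.trans heb) x hx))
        (fun x hx => hmu.le.trans (hs x (hsub a c le_rfl (hce.trans heb) x hx)))
        (by positivity) (fun x hx => by
          have hx2 : x < x₀ := by
            have := hx.2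
            linarith
          have h2 := hl x (hsub a c le_rfl (hce.trans heb) x hx) hx2
          have h3 : mu * δ ≤ mu * (x₀ - x) := by
            apply mul_le_mul_of_nonneg_left _ hmu.le
            have := hx.2
            linarith
          rw [hmd] at h3
          refine le_trans ?_ (neg_le_abs (F1 x))
          linarith)
      refine this.trans (le_of_eq ?_)
      field_simp
      ring
  have h3 : ‖∫ x in e..b, cexp (I * F x)‖ ≤ 2 / s := by
    rcases eq_or_lt_of_le heb with h | h
    · rw [h, intervalIntegral.integral_same, norm_zero]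
      positivity
    · have he2 : e = x₀ + δ := by
        rcases min_choice b (x₀ + δ) with h' | h'
        · rw [← he] at h'
          linarith
        · exact h'
      have := vdc1 (lam := 2 * s) heb (fun x hx => hF x (hsub e b (hac.trans hce) le_rfl x hx))
        (fun x hx => hF1 x (hsub e b (hac.trans hce) le_rfl x hx))
        (hF2.mono (fun x hx => hsub e b (hac.trans hce) le_rfl x hx))
        (fun x hx => hmu.le.trans (hs x (hsub e b (hac.trans hce) le_rfl x hx)))
        (by positivity) (fun x hx => by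
          have hx2 : x₀ < x := by
            have := hx.1
            linarith
          have h2 := hr x (hsub e b (hac.trans hce) le_rfl x hx) hx2
          have h3 : mu * δ ≤ mu * (x - x₀) := by
            apply mul_le_mul_of_nonneg_left _ hmu.le
            have := hx.1
            linarith
          rw [hmd] at h3
          refine le_trans ?_ (le_abs_self (F1 x))
          linarith)
      refine this.trans (le_of_eq ?_)
      field_simp
      ring
  have h2 : ‖∫ x in c..e, cexp (I * F x)‖ ≤ 4 / s := by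
    refine (norm_int_le hce).trans ?_
    have g1 : x₀ - δ ≤ c := le_max_right _ _
    have g2 : e ≤ x₀ + δ := min_le_right _ _
    have g3 : 4 / s = δ + δ := by rw [hδ]; ring
    rw [g3]
    linarith
  rw [hsplit]
  calc _ ≤ ‖∫ x in a..c, cexp (I * F x)‖ + ‖∫ x in c..e, cexp (I * F x)‖ +
      ‖∫ x in e..b, cexp (I * F x)‖ := norm_add₃_le
    _ ≤ 2 / s + 4 / s + 2 / s := add_le_add (add_le_add h1 h2) h3
    _ = 8 / s := by ring

/-- the second derivative test, negative second derivative -/
theorem vdc2n {F F1 F2 : ℝ → ℝ} {a b mu : ℝ} (hab : a ≤ b)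
    (hF : ∀ x ∈ Icc a b, HasDerivAt F (F1 x) x) (hF1 : ∀ x ∈ Icc a b, HasDerivAt F1 (F2 x) x)
    (hF2 : ContinuousOn F2 (Icc a b)) (hmu : 0 < mu) (hs : ∀ x ∈ Icc a b, F2 x ≤ -mu) :
    ‖∫ x in a..b, cexp (I * F x)‖ ≤ 8 / Real.sqrt mu := by
  have h := vdc2 (F := fun x => -F x) (F1 := fun x => -F1 x) (F2 := fun x => -F2 x) hab
    (fun x hx => (hF x hx).fun_neg) (fun x hx => (hF1 x hx).fun_neg) hF2.neg hmu
    (fun x hx => by have := hs x hx; linarith)
  rw [← Complex.norm_conj, ← intervalIntegral.intervalIntegral_conj] at h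
  have e : (fun x => (starRingEnd ℂ) (cexp (I * ((-F x : ℝ) : ℂ)))) = fun x => cexp (I * F x) := by
    funext x
    rw [← Complex.exp_conj, map_mul, conj_I, conj_ofReal]
    push_cast
    ring_nf
  rw [e] at h
  exact h

/-- an amplitude -/
theorem amp {f g g' : ℝ → ℂ} {a b K : ℝ} (hab : a ≤ b) (hf : ContinuousOn f (Icc a b))
    (hg : ∀ x ∈ Icc a b, HasDerivAt g (g' x) x) (hg' : ContinuousOn g' (Icc a b))
    (hK : ∀ x ∈ Icc a b, ‖∫ s in a..x, f s‖ ≤ K) :
    ‖∫ x in a..b, g x * f x‖ ≤ K * (‖g b‖ + ∫ x in a..b, ‖g' x‖) := by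
  have huI : uIcc a b = Icc a b := uIcc_of_le hab
  have hfi : IntervalIntegrable f volume a b := ContinuousOn.intervalIntegrable (huI ▸ hf)
  set E : ℝ → ℂ := fun x => ∫ s in a..x, f s with hE
  have hcE : ContinuousOn E (uIcc a b) := by
    rw [huI]
    have := intervalIntegral.continuousOn_primitive_interval' (μ := volume) (f := f) (a := a)
      (b₁ := a) (b₂ := b) hfi (by rw [huI]; exact left_mem_Icc.2 hab)
    rwa [huI] at this
  have hcg : ContinuousOn g (uIcc a b) := by
    rw [huI]
    exact fun x hx => (hg x hx).continuousAt.continuousWithinAt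
  have hdE : ∀ x ∈ Ioo (min a b) (max a b), HasDerivWithinAt E (f x) (Ioi x) x := by
    intro x hx
    rw [min_eq_left hab, max_eq_right hab] at hx
    have hfx : ContinuousAt f x := hf.continuousAt (Icc_mem_nhds hx.1 hx.2)
    refine (intervalIntegral.integral_hasDerivAt_right
      (hfi.mono_set ?_) ?_ hfx).hasDerivWithinAt
    · rw [huI, uIcc_of_le hx.1.le]
      exact Icc_subset_Icc le_rfl hx.2.le
    · exact (hf.mono Ioo_subset_Icc_self).stronglyMeasurableAtFilter isOpen_Ioo x hx
  have hdg : ∀ x ∈ Ioo (min a b) (max a b), HasDerivWithinAt g (g' x) (Ioi x) x := by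
    intro x hx
    rw [min_eq_left hab, max_eq_right hab] at hx
    exact (hg x (Ioo_subset_Icc_self hx)).hasDerivWithinAt
  have hgi : IntervalIntegrable g' volume a b := ContinuousOn.intervalIntegrable (huI ▸ hg')
  have key := intervalIntegral.integral_mul_deriv_eq_deriv_mul_of_hasDeriv_right hcg hcE hdg hdE
    hgi hfi
  have e0 : E a = 0 := intervalIntegral.integral_same
  rw [e0, mul_zero, sub_zero] at key
  have hK0 : 0 ≤ K := (norm_nonneg _).trans (hK a (left_mem_Icc.2 hab))
  have h2 : ‖∫ x in a..b, g' x * E x‖ ≤ K * ∫ x in a..b, ‖g' x‖ := by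
    refine (intervalIntegral.norm_integral_le_integral_norm hab).trans ?_
    rw [← intervalIntegral.integral_const_mul]
    refine intervalIntegral.integral_mono_on hab ?_ ?_ ?_
    · refine ContinuousOn.intervalIntegrable ?_
      exact ((huI ▸ hg' : ContinuousOn g' (uIcc a b)).mul hcE).norm
    · refine ContinuousOn.intervalIntegrable ?_
      exact continuousOn_const.mul (huI ▸ hg' : ContinuousOn g' (uIcc a b)).norm
    · intro x hx
      rw [norm_mul, mul_comm]
      exact mul_le_mul_of_nonneg_right (hK x hx) (norm_nonneg _)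
  change ‖∫ x in a..b, g x * f x‖ ≤ _
  rw [key]
  calc ‖g b * E b - ∫ x in a..b, g' x * E x‖ ≤ ‖g b * E b‖ + ‖∫ x in a..b, g' x * E x‖ :=
        norm_sub_le _ _
    _ ≤ ‖g b‖ * K + K * ∫ x in a..b, ‖g' x‖ := by
        rw [norm_mul]
        exact add_le_add (mul_le_mul_of_nonneg_left (hK b (right_mem_Icc.2 hab))
          (norm_nonneg _)) h2
    _ = _ := by ring

end Pool.Agent.LE.H28V
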