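import Pool.Agent.LE.StmtsK
import Pool.Agent.Helper28_LSP.VDC

/-!
# One coordinate: bounds for `hh`
-/

set_option autoImplicit false

open MeasureTheory Set Complex

noncomputable section

namespace Pool.Agent.LE.H28V

open Pool.Agent.LE.CL

/-- the phase -/
def ph (t : ℝ) (n : ℤ) (θ : ℝ) : ℝ := n * θ - 2 * t * Real.cos θ

theorem hh_eq (x r t : ℝ) (n : ℤ) : hh x r t n = ∫ θ in (x - r)..(x + r),
    ((r ^ 2 - (θ - x) ^ 2 : ℝ) : ℂ) * cexp (I * ph t n θ) := rfl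

theorem ph_deriv (t : ℝ) (n : ℤ) (θ : ℝ) :
    HasDerivAt (ph t n) (n + 2 * t * Real.sin θ) θ := by
  have h := ((hasDerivAt_id θ).const_mul (n : ℝ)).fun_sub ((Real.hasDerivAt_cos θ).const_mul (2 * t))
  refine h.congr_deriv ?_
  ring

theorem ph_deriv2 (t : ℝ) (n : ℤ) (θ : ℝ) :
    HasDerivAt (fun θ => n + 2 * t * Real.sin θ) (2 * t * Real.cos θ) θ :=
  ((Real.hasDerivAt_sin θ).const_mul (2 * t)).const_add _

theorem cont_ph (t : ℝ) (n : ℤ) : Continuous (ph t n) :=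
  continuous_iff_continuousAt.2 fun θ => (ph_deriv t n θ).continuousAt

theorem cont_exp_ph (t : ℝ) (n : ℤ) : Continuous fun θ => cexp (I * ph t n θ) :=
  Complex.continuous_exp.comp (continuous_const.mul (Complex.continuous_ofReal.comp (cont_ph t n)))

theorem norm_exp_I (y : ℝ) : ‖cexp (I * y)‖ = 1 := by
  rw [mul_comm, Complex.norm_exp_ofReal_mul_I]

/-! ### the derivative in `t` -/

/-- the derivative of `hh` in `t` -/
def hd (x r t : ℝ) (n : ℤ) : ℂ := ∫ θ in (x - r)..(x + r),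
    ((r ^ 2 - (θ - x) ^ 2 : ℝ) : ℂ) * (cexp (I * ph t n θ) * (I * (-(2 * Real.cos θ) : ℝ)))

theorem hh_deriv (x r : ℝ) (n : ℤ) (t : ℝ) :
    HasDerivAt (fun t => hh x r t n) (hd x r t n) t := by
  have hd1 : ∀ θ t : ℝ, HasDerivAt (fun t => ((r ^ 2 - (θ - x) ^ 2 : ℝ) : ℂ) *
      cexp (I * ph t n θ)) (((r ^ 2 - (θ - x) ^ 2 : ℝ) : ℂ) *
        (cexp (I * ph t n θ) * (I * (-(2 * Real.cos θ) : ℝ)))) t := by
    intro θ t
    have h1 : HasDerivAt (fun t : ℝ => ph t n θ) (-(2 * Real.cos θ)) t := by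
      have h := (((hasDerivAt_id t).const_mul 2).mul_const (Real.cos θ)).const_sub ((n : ℝ) * θ)
      refine h.congr_deriv ?_
      ring
    exact ((h1.ofReal_comp.const_mul I).cexp).const_mul _
  have hc1 : ∀ t, Continuous fun θ : ℝ => ((r ^ 2 - (θ - x) ^ 2 : ℝ) : ℂ) *
      cexp (I * ph t n θ) := fun t =>
    (Complex.continuous_ofReal.comp (by fun_prop)).mul (cont_exp_ph t n)
  have hc2 : ∀ t, Continuous fun θ : ℝ => ((r ^ 2 - (θ - x) ^ 2 : ℝ) : ℂ) *
      (cexp (I * ph t n θ) * (I * (-(2 * Real.cos θ) : ℝ))) := fun t =>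
    (Complex.continuous_ofReal.comp (by fun_prop)).mul ((cont_exp_ph t n).mul
      (continuous_const.mul (Complex.continuous_ofReal.comp (by fun_prop))))
  refine (intervalIntegral.hasDerivAt_integral_of_dominated_loc_of_deriv_le (μ := volume)
    (F := fun t θ => ((r ^ 2 - (θ - x) ^ 2 : ℝ) : ℂ) * cexp (I * ph t n θ))
    (F' := fun t θ => ((r ^ 2 - (θ - x) ^ 2 : ℝ) : ℂ) *
      (cexp (I * ph t n θ) * (I * (-(2 * Real.cos θ) : ℝ))))
    (bound := fun θ => |r ^ 2 - (θ - x) ^ 2| * 2) (s := Set.univ) Filter.univ_mem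
    (Filter.Eventually.of_forall fun t => (hc1 t).aestronglyMeasurable)
    ((hc1 t).intervalIntegrable _ _) (hc2 t).aestronglyMeasurable
    (Filter.Eventually.of_forall fun θ _ t _ => ?_)
    (Continuous.intervalIntegrable (by fun_prop) _ _)
    (Filter.Eventually.of_forall fun θ _ t _ => hd1 θ t)).2
  rw [norm_mul, norm_mul, norm_exp_I, one_mul, norm_mul, norm_I, one_mul, Complex.norm_real,
    Complex.norm_real, Real.norm_eq_abs, Real.norm_eq_abs]
  refine mul_le_mul_of_nonneg_left ?_ (abs_nonneg _)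
  rw [abs_neg, abs_mul, abs_two]
  have := Real.abs_cos_le_one θ
  linarith

theorem hd_cont (x r : ℝ) (n : ℤ) : Continuous fun t => hd x r t n := by
  unfold hd
  refine intervalIntegral.continuous_parametric_intervalIntegral_of_continuous' ?_ _ _
  unfold Function.uncurry ph
  fun_prop

/-! ### the norm of `hh` -/

/-- `a` and its derivative -/
theorem aq_deriv (x r θ : ℝ) : HasDerivAt (fun θ : ℝ => ((r ^ 2 - (θ - x) ^ 2 : ℝ) : ℂ))
    ((-(2 * (θ - x)) : ℝ) : ℂ) θ := by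
  have h : HasDerivAt (fun θ : ℝ => r ^ 2 - (θ - x) ^ 2) (-(2 * (θ - x))) θ := by
    have h1 := (((hasDerivAt_id θ).sub_const x).fun_pow 2).const_sub (r ^ 2)
    refine h1.congr_deriv ?_
    simp
  exact h.ofReal_comp

/-- with a bound for the partial integrals of the phase factor -/
theorem hh_le {x r t K : ℝ} {n : ℤ} (hr : 0 < r) (hr2 : r ≤ 1 / 2)
    (hK : ∀ y ∈ Icc (x - r) (x + r), ‖∫ θ in (x - r)..y, cexp (I * ph t n θ)‖ ≤ K) :
    ‖hh x r t n‖ ≤ K := by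
  have hab : x - r ≤ x + r := by linarith
  have hK0 : 0 ≤ K := (norm_nonneg _).trans (hK _ (left_mem_Icc.2 hab))
  rw [hh_eq]
  refine (amp (g' := fun θ => ((-(2 * (θ - x)) : ℝ) : ℂ)) hab (cont_exp_ph t n).continuousOn
    (fun θ _ => aq_deriv x r θ)
    (Complex.continuous_ofReal.comp (by fun_prop)).continuousOn hK).trans ?_
  have e1 : ((r ^ 2 - (x + r - x) ^ 2 : ℝ) : ℂ) = 0 := by
    rw [show r ^ 2 - (x + r - x) ^ 2 = 0 by ring]
    simp
  rw [e1, norm_zero, zero_add]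
  have e2 : ∫ θ in (x - r)..(x + r), ‖((-(2 * (θ - x)) : ℝ) : ℂ)‖ ≤
      ∫ _θ in (x - r)..(x + r), (2 * r : ℝ) := by
    refine intervalIntegral.integral_mono_on hab ?_ ?_ ?_
    · exact (Complex.continuous_ofReal.comp (by fun_prop)).norm.intervalIntegrable _ _
    · exact continuous_const.intervalIntegrable _ _
    · intro θ hθ
      rw [Complex.norm_real, Real.norm_eq_abs, abs_neg, abs_mul, abs_two]
      have : |θ - x| ≤ r := abs_le.2 ⟨by linarith [hθ.1], by linarith [hθ.2]⟩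
      linarith
  rw [intervalIntegral.integral_const, smul_eq_mul] at e2
  have e3 : (x + r - (x - r)) * (2 * r) ≤ 1 := by nlinarith
  calc K * _ ≤ K * 1 := mul_le_mul_of_nonneg_left (e2.trans e3) hK0
    _ = K := mul_one K

/-- the conditions on the base point: `[x - 2r, x + 2r]` is inside `[0, π/2]`, the sine and the
cosine are at least `κ` there -/
structure Bp (x r κ : ℝ) : Prop where
  hr : 0 < r
  hr2 : r ≤ 1 / 2
  hκ : 0 < κ
  hκ1 : κ ≤ 1
  lo : 0 ≤ x - 2 * r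
  hi : x + 2 * r ≤ Real.pi / 2
  hcos : ∀ θ ∈ Icc (x - 2 * r) (x + 2 * r), κ ≤ Real.cos θ
  hsin : ∀ θ ∈ Icc (x - 2 * r) (x + 2 * r), κ ≤ Real.sin θ

section bp

variable {x r κ : ℝ} (hb : Bp x r κ)
include hb

theorem Bp.sub {θ : ℝ} (h : θ ∈ Icc (x - r) (x + r)) : θ ∈ Icc (x - 2 * r) (x + 2 * r) :=
  ⟨by linarith [h.1, hb.hr], by linarith [h.2, hb.hr]⟩

/-- the partial integrals, second derivative -/
theorem Bp.part {t : ℝ} (ht : 0 < t) (n : ℤ) {y : ℝ} (hy : y ∈ Icc (x - r) (x + r)) :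
    ‖∫ θ in (x - r)..y, cexp (I * ph t n θ)‖ ≤ 8 / (κ * Real.sqrt t) := by
  have hκ := hb.hκ
  have h := vdc2 (F := ph t n) (F1 := fun θ => n + 2 * t * Real.sin θ)
    (F2 := fun θ => 2 * t * Real.cos θ) (a := x - r) (b := y) (mu := κ ^ 2 * t) hy.1
    (fun θ _ => ph_deriv t n θ) (fun θ _ => ph_deriv2 t n θ)
    (Continuous.continuousOn (by fun_prop)) (by positivity) (fun θ hθ => by
      have h1 := hb.hcos θ (hb.sub ⟨hθ.1, hθ.2.trans hy.2⟩)
      have h2 : κ ^ 2 ≤ κ := by nlinarith [hb.hκ1]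
      nlinarith [mul_le_mul_of_nonneg_right h1 ht.le, mul_le_mul_of_nonneg_right h2 ht.le])
  rw [Real.sqrt_mul (by positivity), Real.sqrt_sq hκ.le] at h
  exact h

/-- (H1) -/
theorem Bp.h1 {t : ℝ} (ht : 0 < t) (n : ℤ) : ‖hh x r t n‖ ≤ 8 / (κ * Real.sqrt t) :=
  hh_le hb.hr hb.hr2 fun _ hy => hb.part ht n hy

/-- the sine grows -/
theorem Bp.sin_grow {p q : ℝ} (hp : p ∈ Icc (x - 2 * r) (x + 2 * r))
    (hq : q ∈ Icc (x - 2 * r) (x + 2 * r)) (hpq : p ≤ q) :
    κ * (q - p) ≤ Real.sin q - Real.sin p := by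
  refine (convex_Icc (x - 2 * r) (x + 2 * r)).mul_sub_le_image_sub_of_le_deriv
    Real.continuous_sin.continuousOn Real.differentiable_sin.differentiableOn ?_ p hp q hq hpq
  intro z hz
  rw [Real.deriv_sin]
  rw [interior_Icc] at hz
  exact hb.hcos z (Ioo_subset_Icc_self hz)

/-- (H2) -/
theorem Bp.h2 {t : ℝ} (ht : 0 < t) (n : ℤ)
    (hn : ¬ (2 * t * Real.sin (x - 2 * r) ≤ -(n : ℝ) ∧ -(n : ℝ) ≤ 2 * t * Real.sin (x + 2 * r))) :
    ‖hh x r t n‖ ≤ 4 / (κ * r * t) := by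
  have hκ := hb.hκ
  have hr := hb.hr
  have hl : x - 2 * r ∈ Icc (x - 2 * r) (x + 2 * r) := left_mem_Icc.2 (by linarith)
  have hrr : x + 2 * r ∈ Icc (x - 2 * r) (x + 2 * r) := right_mem_Icc.2 (by linarith)
  refine hh_le hb.hr hb.hr2 fun y hy => ?_
  refine vdc1 (F := ph t n) (F1 := fun θ => n + 2 * t * Real.sin θ)
    (F2 := fun θ => 2 * t * Real.cos θ) hy.1
    (fun θ _ => ph_deriv t n θ) (fun θ _ => ph_deriv2 t n θ)
    (Continuous.continuousOn (by fun_prop)) (fun θ hθ => ?_) (by positivity) (fun θ hθ => ?_)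
  · have h1 := hb.hcos θ (hb.sub ⟨hθ.1, hθ.2.trans hy.2⟩)
    exact mul_nonneg (by positivity) (hκ.le.trans h1)
  · have hθ' : θ ∈ Icc (x - r) (x + r) := ⟨hθ.1, hθ.2.trans hy.2⟩
    rcases not_and_or.1 hn with h | h
    · push Not at h
      have h1 := hb.sin_grow hl (hb.sub hθ') (hb.sub hθ').1
      have h2 : κ * r ≤ κ * (θ - (x - 2 * r)) :=
        mul_le_mul_of_nonneg_left (by linarith [hθ'.1]) hκ.le
      refine le_trans ?_ (le_abs_self _)
      nlinarith [mul_le_mul_of_nonneg_left (h2.trans h1) ht.le, mul_pos (mul_pos hκ hr) ht]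
    · push Not at h
      have h1 := hb.sin_grow (hb.sub hθ') hrr (hb.sub hθ').2
      have h2 : κ * r ≤ κ * ((x + 2 * r) - θ) :=
        mul_le_mul_of_nonneg_left (by linarith [hθ'.2]) hκ.le
      refine le_trans ?_ (neg_le_abs _)
      nlinarith [mul_le_mul_of_nonneg_left (h2.trans h1) ht.le, mul_pos (mul_pos hκ hr) ht]

end bp

end Pool.Agent.LE.H28V
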