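import Pool.Agent.Helper28_LSP.HHL

/-!
# One coordinate: the amplitude
-/

set_option autoImplicit false

open MeasureTheory Set Complex

noncomputable section

namespace Pool.Agent.LE.H28V

open Pool.Agent.LE.CL

/-- `(2 cos s - 2 cos θ) = tan ((θ + s) / 2) (2 sin θ - 2 sin s)` -/
theorem tan_id {θ s : ℝ} (h : Real.cos ((θ + s) / 2) ≠ 0) :
    2 * Real.cos s - 2 * Real.cos θ =
      Real.tan ((θ + s) / 2) * (2 * Real.sin θ - 2 * Real.sin s) := by
  have h1 := Real.cos_sub_cos s θ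
  have h2 := Real.sin_sub_sin θ s
  rw [Real.tan_eq_sin_div_cos]
  have e1 : (s + θ) / 2 = (θ + s) / 2 := by ring
  have e2 : (s - θ) / 2 = -((θ - s) / 2) := by ring
  rw [e1, e2, Real.sin_neg] at h1
  have e3 : 2 * Real.cos s - 2 * Real.cos θ = 2 * (Real.cos s - Real.cos θ) := by ring
  have e4 : 2 * Real.sin θ - 2 * Real.sin s = 2 * (Real.sin θ - Real.sin s) := by ring
  rw [e3, e4, h1, h2]
  field_simp

section q

variable (x r s : ℝ)

def q0 (θ : ℝ) : ℝ := (r ^ 2 - (θ - x) ^ 2) * Real.tan ((θ + s) / 2)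

def q1 (θ : ℝ) : ℝ := -(2 * (θ - x)) * Real.tan ((θ + s) / 2) +
  (r ^ 2 - (θ - x) ^ 2) * (1 / Real.cos ((θ + s) / 2) ^ 2 / 2)

def q2 (θ : ℝ) : ℝ := -2 * Real.tan ((θ + s) / 2) +
  -(2 * (θ - x)) * (1 / Real.cos ((θ + s) / 2) ^ 2 / 2) +
  (-(2 * (θ - x)) * (1 / Real.cos ((θ + s) / 2) ^ 2 / 2) +
  (r ^ 2 - (θ - x) ^ 2) * (Real.sin ((θ + s) / 2) / Real.cos ((θ + s) / 2) ^ 3 / 2))

variable {x r s}

theorem half_deriv (θ : ℝ) : HasDerivAt (fun θ : ℝ => (θ + s) / 2) (1 / 2) θ := by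
  have h := ((hasDerivAt_id θ).add_const s).div_const 2
  exact h

theorem a_deriv (θ : ℝ) : HasDerivAt (fun θ : ℝ => r ^ 2 - (θ - x) ^ 2) (-(2 * (θ - x))) θ := by
  have h1 := (((hasDerivAt_id θ).sub_const x).fun_pow 2).const_sub (r ^ 2)
  refine h1.congr_deriv ?_
  simp

theorem a_deriv2 (θ : ℝ) : HasDerivAt (fun θ : ℝ => -(2 * (θ - x))) (-2) θ := by
  have h1 := ((((hasDerivAt_id θ).sub_const x).const_mul 2)).fun_neg
  refine h1.congr_deriv ?_
  ring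

theorem tan_deriv {θ : ℝ} (h : Real.cos ((θ + s) / 2) ≠ 0) :
    HasDerivAt (fun θ : ℝ => Real.tan ((θ + s) / 2)) (1 / Real.cos ((θ + s) / 2) ^ 2 / 2) θ := by
  have h1 := (Real.hasDerivAt_tan h).comp θ (half_deriv (s := s) θ)
  refine h1.congr_deriv ?_
  ring

theorem sec_deriv {θ : ℝ} (h : Real.cos ((θ + s) / 2) ≠ 0) :
    HasDerivAt (fun θ : ℝ => 1 / Real.cos ((θ + s) / 2) ^ 2 / 2)
      (Real.sin ((θ + s) / 2) / Real.cos ((θ + s) / 2) ^ 3 / 2) θ := by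
  have h1 := (Real.hasDerivAt_cos ((θ + s) / 2)).comp θ (half_deriv (s := s) θ)
  have h2 := (((h1.fun_pow 2).fun_inv (pow_ne_zero 2 h)).div_const 2)
  have e : (fun θ : ℝ => 1 / Real.cos ((θ + s) / 2) ^ 2 / 2) =
      fun y : ℝ => ((Real.cos ∘ fun θ : ℝ => (θ + s) / 2) y ^ 2)⁻¹ / 2 := by
    funext y
    simp [Function.comp]
  rw [e]
  refine h2.congr_deriv ?_
  simp only [Function.comp]
  field_simp
  push_cast
  ring

theorem q0_deriv {θ : ℝ} (h : Real.cos ((θ + s) / 2) ≠ 0) :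
    HasDerivAt (q0 x r s) (q1 x r s θ) θ := (a_deriv θ).mul (tan_deriv h)

theorem q1_deriv {θ : ℝ} (h : Real.cos ((θ + s) / 2) ≠ 0) :
    HasDerivAt (q1 x r s) (q2 x r s θ) θ :=
  ((a_deriv2 θ).mul (tan_deriv h)).add ((a_deriv θ).mul (sec_deriv h))

end q

section bp

variable {x r κ : ℝ} (hb : Bp x r κ)
include hb

theorem Bp.cosh {θ s : ℝ} (hθ : θ ∈ Icc (x - r) (x + r)) (hs : s ∈ Icc (x - 2 * r) (x + 2 * r)) :
    κ ≤ Real.cos ((θ + s) / 2) := by
  have h := hb.sub hθ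
  exact hb.hcos _ ⟨by linarith [h.1, hs.1], by linarith [h.2, hs.2]⟩

theorem Bp.q_bound {θ s : ℝ} (hθ : θ ∈ Icc (x - r) (x + r))
    (hs : s ∈ Icc (x - 2 * r) (x + 2 * r)) :
    |q1 x r s θ| ≤ 2 / κ ^ 3 ∧ |q2 x r s θ| ≤ 4 / κ ^ 3 := by
  have hκ := hb.hκ
  have hκ1 := hb.hκ1
  have hc := hb.cosh hθ hs
  have hc0 : 0 < Real.cos ((θ + s) / 2) := hκ.trans_le hc
  have hθx : |θ - x| ≤ r := abs_le.2 ⟨by linarith [hθ.1], by linarith [hθ.2]⟩
  have ha1 : |(-(2 * (θ - x)))| ≤ 1 := by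
    rw [abs_neg, abs_mul, abs_two]
    linarith [hb.hr2]
  have ha0 : |r ^ 2 - (θ - x) ^ 2| ≤ 1 := by
    have h1 : (θ - x) ^ 2 ≤ r ^ 2 := sq_le_sq' (by linarith [(abs_le.1 hθx).1])
      (abs_le.1 hθx).2
    have h2 : r ^ 2 ≤ 1 := by nlinarith [hb.hr, hb.hr2]
    rw [abs_of_nonneg (by linarith)]
    nlinarith [sq_nonneg (θ - x)]
  have hk1 : 1 ≤ 1 / κ := by rw [le_div_iff₀ hκ]; linarith
  have htan : |Real.tan ((θ + s) / 2)| ≤ 1 / κ := by
    rw [Real.tan_eq_sin_div_cos, abs_div, abs_of_pos hc0]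
    exact div_le_div₀ zero_le_one (Real.abs_sin_le_one _) hκ hc
  have hsec : |1 / Real.cos ((θ + s) / 2) ^ 2 / 2| ≤ 1 / κ ^ 2 / 2 := by
    rw [abs_of_nonneg (by positivity)]
    have := one_div_le_one_div_of_le (by positivity : 0 < κ ^ 2)
      (pow_le_pow_left₀ hκ.le hc 2)
    linarith
  have hsc : |Real.sin ((θ + s) / 2) / Real.cos ((θ + s) / 2) ^ 3 / 2| ≤ 1 / κ ^ 3 / 2 := by
    rw [abs_div, abs_div, abs_two, abs_of_pos (show 0 < Real.cos ((θ + s) / 2) ^ 3 by positivity)]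
    have := div_le_div₀ zero_le_one (Real.abs_sin_le_one ((θ + s) / 2))
      (by positivity : 0 < κ ^ 3) (pow_le_pow_left₀ hκ.le hc 3)
    linarith
  have p1 : 1 / κ ≤ 1 / κ ^ 3 := by
    apply one_div_le_one_div_of_le (by positivity)
    have : κ ^ 3 = κ * κ * κ := by ring
    rw [this]
    nlinarith [mul_pos hκ hκ]
  have p2 : 1 / κ ^ 2 ≤ 1 / κ ^ 3 := by
    apply one_div_le_one_div_of_le (by positivity)
    have : κ ^ 3 = κ ^ 2 * κ := by ring
    rw [this]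
    nlinarith [mul_pos hκ hκ]
  have mul1 : ∀ u v w : ℝ, |u| ≤ 1 → |v| ≤ w → |u * v| ≤ w := by
    intro u v w h1 h2
    rw [abs_mul]
    calc |u| * |v| ≤ 1 * |v| := mul_le_mul_of_nonneg_right h1 (abs_nonneg _)
      _ ≤ w := by rw [one_mul]; exact h2
  have hP : 0 < 1 / κ ^ 3 := by positivity
  constructor
  · unfold q1
    refine (abs_add_le _ _).trans ?_
    have e1 := mul1 _ _ _ ha1 htan
    have e2 := mul1 _ _ _ ha0 hsec
    have e3 : 2 / κ ^ 3 = 1 / κ ^ 3 + 1 / κ ^ 3 := by ring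
    rw [e3]
    linarith
  · unfold q2
    have e1 : |(-2) * Real.tan ((θ + s) / 2)| ≤ 2 * (1 / κ) := by
      rw [abs_mul, abs_neg, abs_two]
      linarith
    have e2 := mul1 _ _ _ ha1 hsec
    have e3 := mul1 _ _ _ ha0 hsc
    have e4 : 4 / κ ^ 3 = 4 * (1 / κ ^ 3) := by ring
    rw [e4]
    refine (abs_add_le _ _).trans ?_
    refine (add_le_add (abs_add_le _ _) (abs_add_le _ _)).trans ?_
    linarith

/-- the amplitude derivative is small -/
theorem Bp.amp_deriv {t s : ℝ} (ht : 0 < t) {n : ℤ} (hs : s ∈ Icc (x - 2 * r) (x + 2 * r))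
    (hn : 2 * t * Real.sin s = -(n : ℝ)) :
    ‖hd x r t n + I * (2 * Real.cos s : ℝ) * hh x r t n‖ ≤ 48 / (κ ^ 4 * (t * Real.sqrt t)) := by
  have hκ := hb.hκ
  have hr := hb.hr
  have hab : x - r ≤ x + r := by linarith
  have huI : uIcc (x - r) (x + r) = Icc (x - r) (x + r) := uIcc_of_le hab
  have hne : ∀ θ ∈ Icc (x - r) (x + r), Real.cos ((θ + s) / 2) ≠ 0 := fun θ hθ =>
    (hκ.trans_le (hb.cosh hθ hs)).ne'
  have hq0d : ∀ θ ∈ Icc (x - r) (x + r), HasDerivAt (fun θ => (q0 x r s θ : ℂ))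
      (q1 x r s θ : ℂ) θ := fun θ hθ => (q0_deriv (hne θ hθ)).ofReal_comp
  have hq1d : ∀ θ ∈ Icc (x - r) (x + r), HasDerivAt (fun θ => (q1 x r s θ : ℂ))
      (q2 x r s θ : ℂ) θ := fun θ hθ => (q1_deriv (hne θ hθ)).ofReal_comp
  have hq1c : ContinuousOn (fun θ => (q1 x r s θ : ℂ)) (Icc (x - r) (x + r)) := fun θ hθ =>
    (hq1d θ hθ).continuousAt.continuousWithinAt
  have htanc : ContinuousOn (fun θ : ℝ => Real.tan ((θ + s) / 2)) (Icc (x - r) (x + r)) :=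
    fun θ hθ => (tan_deriv (hne θ hθ)).continuousAt.continuousWithinAt
  have hcc : ContinuousOn (fun θ : ℝ => Real.cos ((θ + s) / 2)) (Icc (x - r) (x + r)) :=
    Continuous.continuousOn (by fun_prop)
  have hsecc : ContinuousOn (fun θ : ℝ => 1 / Real.cos ((θ + s) / 2) ^ 2 / 2)
      (Icc (x - r) (x + r)) := fun θ hθ => (sec_deriv (hne θ hθ)).continuousAt.continuousWithinAt
  have hscc : ContinuousOn (fun θ : ℝ => Real.sin ((θ + s) / 2) / Real.cos ((θ + s) / 2) ^ 3 / 2)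
      (Icc (x - r) (x + r)) :=
    ((Continuous.continuousOn (by fun_prop)).div (hcc.pow 3)
      fun θ hθ => pow_ne_zero 3 (hne θ hθ)).div_const 2
  have hq2r : ContinuousOn (q2 x r s) (Icc (x - r) (x + r)) := by
    unfold q2
    refine ((continuousOn_const.mul htanc).add ((Continuous.continuousOn (by fun_prop)).mul
      hsecc)).add (((Continuous.continuousOn (by fun_prop)).mul hsecc).add
      ((Continuous.continuousOn (by fun_prop)).mul hscc))
  have hq2c : ContinuousOn (fun θ => (q2 x r s θ : ℂ)) (Icc (x - r) (x + r)) :=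
    Complex.continuous_ofReal.comp_continuousOn hq2r
  set v : ℝ → ℂ := fun θ => cexp (I * ph t n θ) with hv
  set v' : ℝ → ℂ := fun θ => cexp (I * ph t n θ) * (I * (n + 2 * t * Real.sin θ : ℝ)) with hv'
  have hvd : ∀ θ ∈ uIcc (x - r) (x + r), HasDerivAt v (v' θ) θ := fun θ _ =>
    ((ph_deriv t n θ).ofReal_comp.const_mul I).cexp
  have hv'c : Continuous v' := (cont_exp_ph t n).mul (continuous_const.mul
    (Complex.continuous_ofReal.comp (by fun_prop)))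
  have key := intervalIntegral.integral_mul_deriv_eq_deriv_mul
    (u := fun θ => (q0 x r s θ : ℂ)) (v := v) (u' := fun θ => (q1 x r s θ : ℂ)) (v' := v')
    (a := x - r) (b := x + r) (fun θ hθ => hq0d θ (huI ▸ hθ)) hvd
    (ContinuousOn.intervalIntegrable (huI ▸ hq1c)) (hv'c.intervalIntegrable _ _)
  have z1 : q0 x r s (x + r) = 0 := by
    unfold q0
    rw [show r ^ 2 - (x + r - x) ^ 2 = 0 by ring, zero_mul]
  have z2 : q0 x r s (x - r) = 0 := by
    unfold q0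
    rw [show r ^ 2 - (x - r - x) ^ 2 = 0 by ring, zero_mul]
  rw [z1, z2, ofReal_zero, zero_mul, zero_mul, sub_zero, zero_sub] at key
  have hc1 : Continuous fun θ : ℝ => ((r ^ 2 - (θ - x) ^ 2 : ℝ) : ℂ) * cexp (I * ph t n θ) :=
    (Complex.continuous_ofReal.comp (by fun_prop)).mul (cont_exp_ph t n)
  have hc2 : Continuous fun θ : ℝ => ((r ^ 2 - (θ - x) ^ 2 : ℝ) : ℂ) *
      (cexp (I * ph t n θ) * (I * (-(2 * Real.cos θ) : ℝ))) :=
    (Complex.continuous_ofReal.comp (by fun_prop)).mul ((cont_exp_ph t n).mul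
      (continuous_const.mul (Complex.continuous_ofReal.comp (by fun_prop))))
  have hc3 : Continuous fun θ : ℝ => I * ((2 * Real.cos s : ℝ) : ℂ) *
      (((r ^ 2 - (θ - x) ^ 2 : ℝ) : ℂ) * cexp (I * ph t n θ)) := continuous_const.mul hc1
  have e1 : hd x r t n + I * (2 * Real.cos s : ℝ) * hh x r t n =
      ((t⁻¹ : ℝ) : ℂ) * ∫ θ in (x - r)..(x + r), (q0 x r s θ : ℂ) * v' θ := by
    rw [hh_eq, hd, ← intervalIntegral.integral_const_mul, ← intervalIntegral.integral_add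
      (hc2.intervalIntegrable _ _) (hc3.intervalIntegrable _ _),
      ← intervalIntegral.integral_const_mul]
    refine intervalIntegral.integral_congr fun θ hθ => ?_
    rw [huI] at hθ
    have h1 := tan_id (hne θ hθ)
    have h2 : ((2 * Real.cos s - 2 * Real.cos θ : ℝ) : ℂ) = ((t⁻¹ * (Real.tan ((θ + s) / 2) *
        (n + 2 * t * Real.sin θ)) : ℝ) : ℂ) := by
      rw [h1]
      congr 1
      have h3 : (n : ℝ) + 2 * t * Real.sin θ = t * (2 * Real.sin θ - 2 * Real.sin s) := by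
        rw [show (n : ℝ) = -(2 * t * Real.sin s) by rw [hn]; ring]
        ring
      rw [h3]
      field_simp
    change ((r ^ 2 - (θ - x) ^ 2 : ℝ) : ℂ) * (cexp (I * ph t n θ) * (I * (-(2 * Real.cos θ) : ℝ))) +
      I * (2 * Real.cos s : ℝ) * (((r ^ 2 - (θ - x) ^ 2 : ℝ) : ℂ) * cexp (I * ph t n θ)) =
      ((t⁻¹ : ℝ) : ℂ) * (((r ^ 2 - (θ - x) ^ 2) * Real.tan ((θ + s) / 2) : ℝ) *
        (cexp (I * ph t n θ) * (I * (n + 2 * t * Real.sin θ : ℝ))))
    have h4 : ((r ^ 2 - (θ - x) ^ 2 : ℝ) : ℂ) * (cexp (I * ph t n θ) *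
        (I * (-(2 * Real.cos θ) : ℝ))) +
      I * (2 * Real.cos s : ℝ) * (((r ^ 2 - (θ - x) ^ 2 : ℝ) : ℂ) * cexp (I * ph t n θ)) =
      ((r ^ 2 - (θ - x) ^ 2 : ℝ) : ℂ) * cexp (I * ph t n θ) * I *
        ((2 * Real.cos s - 2 * Real.cos θ : ℝ) : ℂ) := by
      push_cast
      ring
    rw [h4, h2]
    push_cast
    ring
  rw [e1, key, norm_mul, Complex.norm_real, Real.norm_of_nonneg (by positivity), norm_neg]
  have h5 := amp (f := v) (g := fun θ => (q1 x r s θ : ℂ)) (g' := fun θ => (q2 x r s θ : ℂ)) hab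
    (cont_exp_ph t n).continuousOn hq1d hq2c (fun y hy => hb.part ht n hy)
  have h6 : ‖((q1 x r s (x + r) : ℝ) : ℂ)‖ ≤ 2 / κ ^ 3 := by
    rw [Complex.norm_real]
    exact (hb.q_bound (right_mem_Icc.2 hab) hs).1
  have h7 : ∫ θ in (x - r)..(x + r), ‖(q2 x r s θ : ℂ)‖ ≤ 4 / κ ^ 3 := by
    have h8 : ∫ θ in (x - r)..(x + r), ‖(q2 x r s θ : ℂ)‖ ≤
        ∫ _θ in (x - r)..(x + r), (4 / κ ^ 3 : ℝ) := by
      refine intervalIntegral.integral_mono_on hab ?_ ?_ ?_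
      · exact ContinuousOn.intervalIntegrable (huI ▸ hq2c.norm)
      · exact continuous_const.intervalIntegrable _ _
      · intro θ hθ
        rw [Complex.norm_real]
        exact (hb.q_bound hθ hs).2
    rw [intervalIntegral.integral_const, smul_eq_mul] at h8
    refine h8.trans ?_
    have : 0 < 4 / κ ^ 3 := by positivity
    nlinarith [hb.hr2]
  have h8 : ‖∫ θ in (x - r)..(x + r), (q1 x r s θ : ℂ) * v θ‖ ≤
      8 / (κ * Real.sqrt t) * (6 / κ ^ 3) := by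
    refine h5.trans (mul_le_mul_of_nonneg_left ?_ (by positivity))
    have e6 : 6 / κ ^ 3 = 2 / κ ^ 3 + 4 / κ ^ 3 := by ring
    rw [e6]
    exact add_le_add h6 h7
  calc t⁻¹ * ‖∫ θ in (x - r)..(x + r), (q1 x r s θ : ℂ) * v θ‖
      ≤ t⁻¹ * (8 / (κ * Real.sqrt t) * (6 / κ ^ 3)) :=
        mul_le_mul_of_nonneg_left h8 (by positivity)
    _ = 48 / (κ ^ 4 * (t * Real.sqrt t)) := by
        have : 0 < Real.sqrt t := Real.sqrt_pos.2 ht
        field_simp
        ring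

end bp

end Pool.Agent.LE.H28V
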