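import Pool.Agent.Helper28_LSP.HHM

/-!
# One coordinate: phase and amplitude
-/

set_option autoImplicit false

open MeasureTheory Set Complex

noncomputable section

namespace Pool.Agent.LE.H28V

open Pool.Agent.LE.CL

/-- the critical angle -/
def tha (n : ℤ) (t : ℝ) : ℝ := Real.arcsin (-(n : ℝ) / (2 * t))

/-- the times with a critical point -/
def Rg (x r : ℝ) (n : ℤ) (t : ℝ) : Prop :=
  2 * t * Real.sin (x - 2 * r) ≤ -(n : ℝ) ∧ -(n : ℝ) ≤ 2 * t * Real.sin (x + 2 * r)

/-- the phase -/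
def p0 (n : ℤ) (t : ℝ) : ℝ := ph t n (tha n t)

/-- the second derivative of the phase -/
def p2 (n : ℤ) (t : ℝ) : ℝ := -(2 * (Real.sin (tha n t) ^ 2 / Real.cos (tha n t)) / t)

/-- the amplitude -/
def bm (x r : ℝ) (n : ℤ) (t : ℝ) : ℂ := hh x r t n * cexp (-(I * p0 n t))

/-- the derivative of the amplitude -/
def bm1 (x r : ℝ) (n : ℤ) (t : ℝ) : ℂ :=
  (hd x r t n + I * (2 * Real.cos (tha n t) : ℝ) * hh x r t n) * cexp (-(I * p0 n t))

section bp

variable {x r κ : ℝ} (hb : Bp x r κ) {n : ℤ} {t : ℝ} (ht : 0 < t) (hR : Rg x r n t)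
include hb ht hR

theorem Bp.tha_mem : tha n t ∈ Icc (x - 2 * r) (x + 2 * r) := by
  have hπ := Real.pi_pos
  have h1 : Real.sin (x - 2 * r) ≤ -(n : ℝ) / (2 * t) := by
    rw [le_div_iff₀ (by positivity)]
    linarith [hR.1]
  have h2 : -(n : ℝ) / (2 * t) ≤ Real.sin (x + 2 * r) := by
    rw [div_le_iff₀ (by positivity)]
    linarith [hR.2]
  have h3 := Real.monotone_arcsin h1
  have h4 := Real.monotone_arcsin h2
  rw [Real.arcsin_sin (by linarith [hb.lo]) (by linarith [hb.hi, hb.hr])] at h3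
  rw [Real.arcsin_sin (by linarith [hb.lo, hb.hr]) hb.hi] at h4
  exact ⟨h3, h4⟩

theorem Bp.y_mem : -1 < -(n : ℝ) / (2 * t) ∧ -(n : ℝ) / (2 * t) < 1 := by
  have hr := hb.hr
  have hl : x - 2 * r ∈ Icc (x - 2 * r) (x + 2 * r) := left_mem_Icc.2 (by linarith)
  have hrr : x + 2 * r ∈ Icc (x - 2 * r) (x + 2 * r) := right_mem_Icc.2 (by linarith)
  have h1 : Real.sin (x - 2 * r) ≤ -(n : ℝ) / (2 * t) := by
    rw [le_div_iff₀ (by positivity)]
    linarith [hR.1]
  have h2 : -(n : ℝ) / (2 * t) ≤ Real.sin (x + 2 * r) := by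
    rw [div_le_iff₀ (by positivity)]
    linarith [hR.2]
  have h3 := hb.hsin _ hl
  have h4 := hb.hcos _ hrr
  have h5 := Real.sin_sq_add_cos_sq (x + 2 * r)
  have h6 : Real.sin (x + 2 * r) < 1 := by
    by_contra h
    push Not at h
    nlinarith [hb.hκ, mul_pos hb.hκ hb.hκ]
  constructor
  · linarith [hb.hκ]
  · linarith

theorem Bp.sin_tha : 2 * t * Real.sin (tha n t) = -(n : ℝ) := by
  have h := hb.y_mem ht hR
  unfold tha
  rw [Real.sin_arcsin h.1.le h.2.le]
  field_simp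

theorem Bp.cos_tha_pos : 0 < Real.cos (tha n t) := hb.hκ.trans_le (hb.hcos _ (hb.tha_mem ht hR))

theorem Bp.tha_deriv : HasDerivAt (tha n)
    (-(Real.sin (tha n t) / Real.cos (tha n t) / t)) t := by
  have hy := hb.y_mem ht hR
  have hc := hb.cos_tha_pos ht hR
  have h1 : HasDerivAt (fun t : ℝ => -(n : ℝ) / (2 * t)) (-(Real.sin (tha n t) / t)) t := by
    have h2 := (((hasDerivAt_id t).const_mul (2 : ℝ)).fun_inv (by simpa using ht.ne')).const_mul
      (-(n : ℝ))
    have e : (fun t : ℝ => -(n : ℝ) / (2 * t)) = fun y => -(n : ℝ) * (2 * id y)⁻¹ := by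
      funext y
      simp [div_eq_mul_inv]
    rw [e]
    refine h2.congr_deriv ?_
    rw [← hb.sin_tha ht hR]
    simp only [id]
    field_simp
  have h3 := (Real.hasDerivAt_arcsin hy.1.ne' hy.2.ne).comp t h1
  refine h3.congr_deriv ?_
  have h4 : Real.sqrt (1 - (-(n : ℝ) / (2 * t)) ^ 2) = Real.cos (tha n t) := by
    unfold tha
    rw [Real.cos_arcsin]
  rw [h4]
  field_simp

theorem Bp.p0_deriv : HasDerivAt (p0 n) (-(2 * Real.cos (tha n t))) t := by
  have h1 := hb.tha_deriv ht hR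
  have h2 := hb.sin_tha ht hR
  have h3 := (h1.const_mul (n : ℝ)).fun_sub
    (((hasDerivAt_id t).const_mul (2 : ℝ)).fun_mul ((Real.hasDerivAt_cos _).comp t h1))
  refine HasDerivAt.congr_deriv (f := fun y => (n : ℝ) * tha n y - 2 * id y *
    (Real.cos ∘ tha n) y) h3 ?_
  simp only [id, Function.comp]
  rw [show (n : ℝ) = -(2 * t * Real.sin (tha n t)) by rw [h2]; ring]
  ring

theorem Bp.p1_deriv : HasDerivAt (fun t => -(2 * Real.cos (tha n t))) (p2 n t) t := by
  have h1 := hb.tha_deriv ht hR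
  have h3 := (((Real.hasDerivAt_cos _).comp t h1).const_mul (2 : ℝ)).fun_neg
  refine HasDerivAt.congr_deriv (f := fun y => -(2 * (Real.cos ∘ tha n) y)) h3 ?_
  unfold p2
  ring

theorem Bp.p2_cont : ContinuousAt (p2 n) t := by
  have h1 := (hb.tha_deriv ht hR).continuousAt
  have hc := hb.cos_tha_pos ht hR
  unfold p2
  have hs : ContinuousAt (fun t => Real.sin (tha n t)) t :=
    Real.continuous_sin.continuousAt.comp h1
  have hcc : ContinuousAt (fun t => Real.cos (tha n t)) t :=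
    Real.continuous_cos.continuousAt.comp h1
  exact ((continuousAt_const.mul ((hs.pow 2).div hcc hc.ne')).div continuousAt_id ht.ne').neg

theorem Bp.bm_deriv : HasDerivAt (bm x r n) (bm1 x r n t) t := by
  have h1 := hb.p0_deriv ht hR
  have h2 := (hh_deriv x r n t).mul ((h1.ofReal_comp.const_mul I).fun_neg.cexp)
  refine HasDerivAt.congr_deriv (f := bm x r n) h2 ?_
  unfold bm1
  push_cast
  ring

theorem Bp.bm1_cont : ContinuousAt (bm1 x r n) t := by
  have h1 := (hb.tha_deriv ht hR).continuousAt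
  have h0 := (hb.p0_deriv ht hR).continuousAt
  have hcc : ContinuousAt (fun t => ((2 * Real.cos (tha n t) : ℝ) : ℂ)) t :=
    Complex.continuous_ofReal.continuousAt.comp
      (continuousAt_const.mul (Real.continuous_cos.continuousAt.comp h1))
  have he : ContinuousAt (fun t => cexp (-(I * p0 n t))) t :=
    Complex.continuous_exp.continuousAt.comp
      (continuousAt_const.mul (Complex.continuous_ofReal.continuousAt.comp h0)).neg
  exact ((hd_cont x r n).continuousAt.add ((continuousAt_const.mul hcc).mul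
    (hh_deriv x r n t).continuousAt)).mul he

theorem Bp.bm1_le : ‖bm1 x r n t‖ ≤ 48 / (κ ^ 4 * (t * Real.sqrt t)) := by
  unfold bm1
  rw [norm_mul, ← mul_neg, ← Complex.ofReal_neg, norm_exp_I, mul_one]
  exact hb.amp_deriv ht (hb.tha_mem ht hR) (hb.sin_tha ht hR)

end bp

theorem bm_norm (x r : ℝ) (n : ℤ) (t : ℝ) : ‖bm x r n t‖ = ‖hh x r t n‖ := by
  unfold bm
  rw [norm_mul, ← mul_neg, ← Complex.ofReal_neg, norm_exp_I, mul_one]

theorem hh_bm (x r : ℝ) (n : ℤ) (t : ℝ) : hh x r t n = cexp (I * p0 n t) * bm x r n t := by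
  unfold bm
  rw [mul_comm (hh x r t n), ← mul_assoc, ← Complex.exp_add, add_neg_cancel, Complex.exp_zero,
    one_mul]

/-! ### the reflection -/

theorem hh_reflect (x r t : ℝ) (n : ℤ) :
    hh (Real.pi - x) r t n = cexp (I * (n * Real.pi : ℝ)) * (starRingEnd ℂ) (hh x r t n) := by
  have h1 : hh (Real.pi - x) r t n = ∫ θ in (x - r)..(x + r),
      ((r ^ 2 - (Real.pi - θ - (Real.pi - x)) ^ 2 : ℝ) : ℂ) *
        cexp (I * ph t n (Real.pi - θ)) := by
    rw [hh_eq, intervalIntegral.integral_comp_sub_left (fun θ =>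
      ((r ^ 2 - (θ - (Real.pi - x)) ^ 2 : ℝ) : ℂ) * cexp (I * ph t n θ)) Real.pi]
    congr 1 <;> ring
  rw [h1, hh_eq, ← intervalIntegral.intervalIntegral_conj, ← intervalIntegral.integral_const_mul]
  refine intervalIntegral.integral_congr fun θ _ => ?_
  change ((r ^ 2 - (Real.pi - θ - (Real.pi - x)) ^ 2 : ℝ) : ℂ) * cexp (I * ph t n (Real.pi - θ)) =
    cexp (I * (n * Real.pi : ℝ)) * (starRingEnd ℂ) (((r ^ 2 - (θ - x) ^ 2 : ℝ) : ℂ) *
      cexp (I * ph t n θ))
  rw [map_mul, conj_ofReal, ← Complex.exp_conj, map_mul, conj_I, conj_ofReal]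
  have e1 : Real.pi - θ - (Real.pi - x) = -(θ - x) := by ring
  rw [e1, neg_sq]
  have e2 : cexp (I * ph t n (Real.pi - θ)) =
      cexp (I * (n * Real.pi : ℝ)) * cexp (-I * ph t n θ) := by
    rw [← Complex.exp_add]
    congr 1
    unfold ph
    rw [Real.cos_pi_sub]
    push_cast
    ring
  rw [e2]
  ring

end Pool.Agent.LE.H28V
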