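import Pool.Agent.Helper28_LSP.MTA

/-!
# The main term
-/

set_option autoImplicit false

open MeasureTheory Set

open scoped BigOperators

noncomputable section

namespace Pool.Agent.LE.H28V

open Pool.Agent.LE.CL

section multi

variable {k : ℕ}

/-- the smoothed density of states -/
def MM (th : Fin (k + 1) → ℝ) (r T E : ℝ) : ℝ :=
  ∫ θ : Fin (k + 1) → ℝ, (∏ j, aa (th j) r (θ j)) * fj T (∑ j, 2 * Real.cos (θ j) - E)

theorem prod_int {m : ℕ} (th : Fin m → ℝ) {r : ℝ} (hr : 0 < r) :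
    Integrable fun θ : Fin m → ℝ => ∏ j, aa (th j) r (θ j) :=
  Integrable.fintype_prod fun j => aa_int (x := th j) hr

theorem MM_int (th : Fin (k + 1) → ℝ) {r T : ℝ} (hr : 0 < r) (hT : 0 < T) (E : ℝ) :
    Integrable fun θ : Fin (k + 1) → ℝ =>
      (∏ j, aa (th j) r (θ j)) * fj T (∑ j, 2 * Real.cos (θ j) - E) := by
  refine (prod_int th hr).mul_bdd (c := T) ?_ ?_
  · exact ((fj_meas T).comp (by fun_prop)).aestronglyMeasurable
  · refine Filter.Eventually.of_forall fun θ => ?_
    rw [Real.norm_of_nonneg (fj_nonneg hT _)]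
    exact fj_le hT _

theorem MM_eq (th : Fin (k + 1) → ℝ) {r T : ℝ} (hr : 0 < r) (hT : 0 < T) (E : ℝ) :
    MM th r T E = ∫ θ : Fin k → ℝ, (∏ j, aa (th j.succ) r (θ j)) *
      J (th 0) r T (∑ j, 2 * Real.cos (θ j) - E) := by
  set g : ℝ × (Fin k → ℝ) → ℝ := fun p => (aa (th 0) r p.1 * ∏ j, aa (th j.succ) r (p.2 j)) *
    fj T (2 * Real.cos p.1 + (∑ j, 2 * Real.cos (p.2 j) - E)) with hg
  have hgi : Integrable g (volume.prod volume) := by
    have h1 : Integrable (fun p : ℝ × (Fin k → ℝ) => aa (th 0) r p.1 *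
        ∏ j, aa (th j.succ) r (p.2 j)) (volume.prod volume) :=
      (aa_int hr).mul_prod (prod_int (fun j => th j.succ) hr)
    refine h1.mul_bdd (c := T) ?_ ?_
    · exact ((fj_meas T).comp (by fun_prop)).aestronglyMeasurable
    · refine Filter.Eventually.of_forall fun θ => ?_
      rw [Real.norm_of_nonneg (fj_nonneg hT _)]
      exact fj_le hT _
  have h1 : MM th r T E = ∫ p, g p ∂(volume.prod volume) := by
    have h2 := (volume_preserving_piFinSuccAbove (fun _ : Fin (k + 1) => ℝ) 0).integral_comp' g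
    unfold MM
    refine Eq.trans ?_ h2
    refine integral_congr_ae (Filter.Eventually.of_forall fun θ => ?_)
    change (∏ j, aa (th j) r (θ j)) * fj T (∑ j, 2 * Real.cos (θ j) - E) =
      (aa (th 0) r (θ 0) * ∏ j : Fin k, aa (th j.succ) r (θ ((0 : Fin (k + 1)).succAbove j))) *
        fj T (2 * Real.cos (θ 0) +
          (∑ j : Fin k, 2 * Real.cos (θ ((0 : Fin (k + 1)).succAbove j)) - E))
    simp only [Fin.zero_succAbove]
    rw [Fin.prod_univ_succ, Fin.sum_univ_succ, add_sub_assoc]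
  rw [h1, integral_prod_symm g hgi]
  refine integral_congr_ae (Filter.Eventually.of_forall fun θ => ?_)
  simp only [hg]
  unfold J
  rw [← integral_const_mul]
  refine integral_congr_ae (Filter.Eventually.of_forall fun t => ?_)
  simp only
  ring

theorem J_meas (x r T : ℝ) (hr : 0 < r) (hT : 0 < T) {m : ℕ} (E : ℝ) :
    AEStronglyMeasurable (fun θ : Fin m → ℝ => J x r T (∑ j, 2 * Real.cos (θ j) - E)) volume := by
  unfold J
  have h : AEStronglyMeasurable (fun p : (Fin m → ℝ) × ℝ => aa x r p.2 *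
      fj T (2 * Real.cos p.2 + (∑ j, 2 * Real.cos (p.1 j) - E))) (volume.prod volume) :=
    (((aa_cont x r).measurable.comp measurable_snd).mul
      ((fj_meas T).comp (by fun_prop))).aestronglyMeasurable
  exact h.integral_prod_right'

variable {th : Fin (k + 1) → ℝ} {r κ : ℝ} (hm : ∀ j, Mp (th j) r κ)
include hm

theorem MM_upper {T : ℝ} (hT : 0 < T) (E : ℝ) : MM th r T E ≤ 8 / κ := by
  have hr := (hm 0).hr
  have hκ := (hm 0).hκ
  rw [MM_eq th hr hT E]
  have hi : Integrable fun θ : Fin k → ℝ => (∏ j, aa (th j.succ) r (θ j)) *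
      J (th 0) r T (∑ j, 2 * Real.cos (θ j) - E) := by
    refine (prod_int (fun j => th j.succ) hr).mul_bdd (c := 8 / κ) (J_meas _ _ _ hr hT E) ?_
    refine Filter.Eventually.of_forall fun θ => ?_
    rw [Real.norm_of_nonneg (J_nonneg hT _)]
    exact (hm 0).J_upper hT _
  have h1 : ∫ θ : Fin k → ℝ, (∏ j, aa (th j.succ) r (θ j)) *
      J (th 0) r T (∑ j, 2 * Real.cos (θ j) - E) ≤
      ∫ θ : Fin k → ℝ, (∏ j, aa (th j.succ) r (θ j)) * (8 / κ) := by
    refine integral_mono hi ((prod_int (fun j => th j.succ) hr).mul_const _) fun θ => ?_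
    exact mul_le_mul_of_nonneg_left ((hm 0).J_upper hT _)
      (Finset.prod_nonneg fun j _ => aa_nonneg _ _ _)
  refine h1.trans ?_
  rw [integral_mul_const, integral_fintype_prod_volume_eq_prod]
  have h2 : ∏ j : Fin k, ∫ θ, aa (th j.succ) r θ ≤ 1 := by
    refine Finset.prod_le_one (fun j _ => integral_nonneg fun _ => aa_nonneg _ _ _) fun j _ => ?_
    have h3 : ∫ θ, aa (th j.succ) r θ = ∫ θ in Icc (th j.succ - r) (th j.succ + r),
        aa (th j.succ) r θ :=
      (setIntegral_eq_integral_of_forall_compl_eq_zero fun θ hθ => aa_off hr hθ).symm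
    rw [h3]
    have h4 : ∫ θ in Icc (th j.succ - r) (th j.succ + r), aa (th j.succ) r θ ≤
        ∫ _θ in Icc (th j.succ - r) (th j.succ + r), (1 : ℝ) := by
      refine setIntegral_mono (aa_int hr).integrableOn ?_ fun θ => aa_le hr (hm 0).hr2 θ
      exact integrableOn_const (by rw [Real.volume_Icc]; exact ENNReal.ofReal_ne_top)
    rw [setIntegral_const, Real.volume_real_Icc_of_le (by linarith), smul_eq_mul, mul_one] at h4
    linarith [(hm 0).hr2]
  calc (∏ j : Fin k, ∫ θ, aa (th j.succ) r θ) * (8 / κ) ≤ 1 * (8 / κ) :=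
        mul_le_mul_of_nonneg_right h2 (by positivity)
    _ = _ := one_mul _

theorem MM_lower {T : ℝ} (hT : 1 ≤ T) {E : ℝ} (hE : ∑ j, 2 * Real.cos (th j) = E) :
    r ^ 3 / 32 * (κ * r / (2 * (k + 1)) * r ^ 2) ^ k ≤ MM th r T E := by
  classical
  have hr := (hm 0).hr
  have hκ := (hm 0).hκ
  have hT0 : 0 < T := by linarith
  have hκ1 : κ ≤ 1 := ((hm 0).hsin (th 0) ⟨by linarith, by linarith⟩).trans (Real.sin_le_one _)
  rw [MM_eq th hr hT0 E]
  set ρ := κ * r / (2 * (k + 1)) with hρ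
  have hk : (0 : ℝ) ≤ k := Nat.cast_nonneg k
  have hρ0 : 0 < ρ := by positivity
  have hρk : 2 * k * ρ ≤ κ * r := by
    have h1 : 2 * (k + 1) * ρ = κ * r := by
      rw [hρ]
      field_simp
    nlinarith
  have hρr : ρ ≤ r / 2 := by
    rw [hρ, div_le_div_iff₀ (by positivity) (by norm_num)]
    nlinarith [mul_le_mul_of_nonneg_right hκ1 hr.le, mul_nonneg hk hr.le]
  have hρ2 : ρ ^ 2 ≤ r ^ 2 / 2 := by
    have := pow_le_pow_left₀ hρ0.le hρr 2
    nlinarith [mul_pos hr hr]
  set lo : Fin k → ℝ → ℝ := fun j => (Icc (th j.succ - ρ) (th j.succ + ρ)).indicator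
    fun _ => r ^ 2 / 2 with hlo
  have hloi : ∀ j, Integrable (lo j) := by
    intro j
    refine (integrable_indicator_iff measurableSet_Icc).2 ?_
    exact integrableOn_const (by rw [Real.volume_Icc]; exact ENNReal.ofReal_ne_top)
  have hlov : ∀ j, ∫ θ, lo j θ = ρ * r ^ 2 := by
    intro j
    simp only [hlo]
    rw [integral_indicator measurableSet_Icc, setIntegral_const,
      Real.volume_real_Icc_of_le (by linarith), smul_eq_mul]
    ring
  have hlo0 : ∀ j θ, 0 ≤ lo j θ := fun j θ => indicator_nonneg (fun _ _ => by positivity) _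
  have hi : Integrable fun θ : Fin k → ℝ => (∏ j, aa (th j.succ) r (θ j)) *
      J (th 0) r T (∑ j, 2 * Real.cos (θ j) - E) := by
    refine (prod_int (fun j => th j.succ) hr).mul_bdd (c := 8 / κ) (J_meas _ _ _ hr hT0 E) ?_
    refine Filter.Eventually.of_forall fun θ => ?_
    rw [Real.norm_of_nonneg (J_nonneg hT0 _)]
    exact (hm 0).J_upper hT0 _
  have h1 : ∫ θ : Fin k → ℝ, (∏ j, lo j (θ j)) * (r ^ 3 / 32) ≤
      ∫ θ : Fin k → ℝ, (∏ j, aa (th j.succ) r (θ j)) *
        J (th 0) r T (∑ j, 2 * Real.cos (θ j) - E) := by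
    refine integral_mono ((Integrable.fintype_prod hloi).mul_const _) hi fun θ => ?_
    change (∏ j, lo j (θ j)) * (r ^ 3 / 32) ≤ (∏ j, aa (th j.succ) r (θ j)) *
        J (th 0) r T (∑ j, 2 * Real.cos (θ j) - E)
    by_cases h : ∀ j, θ j ∈ Icc (th j.succ - ρ) (th j.succ + ρ)
    · have h2 : ∀ j, |θ j - th j.succ| ≤ ρ := fun j =>
        abs_le.2 ⟨by linarith [(h j).1], by linarith [(h j).2]⟩
      refine mul_le_mul ?_ ?_ (by positivity) (Finset.prod_nonneg fun j _ => aa_nonneg _ _ _)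
      · refine Finset.prod_le_prod (fun j _ => hlo0 j _) fun j _ => ?_
        simp only [hlo]
        rw [indicator_of_mem (h j)]
        exact aa_ge (h2 j) hρ2
      · refine (hm 0).J_lower hT ?_
        rw [← hE, Fin.sum_univ_succ]
        have e : 2 * Real.cos (th 0) + (∑ j, 2 * Real.cos (θ j) -
            (2 * Real.cos (th 0) + ∑ j : Fin k, 2 * Real.cos (th j.succ))) =
            ∑ j, (2 * Real.cos (θ j) - 2 * Real.cos (th j.succ)) := by
          rw [Finset.sum_sub_distrib]
          ring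
        rw [e]
        refine (Finset.abs_sum_le_sum_abs _ _).trans ?_
        have h3 : ∀ j ∈ (Finset.univ : Finset (Fin k)),
            |2 * Real.cos (θ j) - 2 * Real.cos (th j.succ)| ≤ 2 * ρ := by
          intro j _
          rw [← mul_sub, abs_mul, abs_two]
          have := (Real.abs_cos_sub_cos_le (θ j) (th j.succ)).trans (h2 j)
          linarith
        refine (Finset.sum_le_sum h3).trans ?_
        rw [Finset.sum_const, Finset.card_univ, Fintype.card_fin, nsmul_eq_mul]
        linarith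
    · push Not at h
      obtain ⟨j, hj⟩ := h
      have h2 : ∏ j, lo j (θ j) = 0 := by
        refine Finset.prod_eq_zero (Finset.mem_univ j) ?_
        simp only [hlo]
        exact indicator_of_notMem hj _
      rw [h2, zero_mul]
      exact mul_nonneg (Finset.prod_nonneg fun j _ => aa_nonneg _ _ _) (J_nonneg hT0 _)
  refine le_trans (le_of_eq ?_) h1
  rw [integral_mul_const, integral_fintype_prod_volume_eq_prod,
    Finset.prod_congr rfl fun j _ => hlov j, Finset.prod_const, Finset.card_univ,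
    Fintype.card_fin]
  ring

omit hm in
theorem MM_wh (th : Fin (k + 1) → ℝ) {r T : ℝ} (hr : 0 < r) (hT : 0 < T) (E : ℝ) :
    ∫ θ : Fin (k + 1) → ℝ, (∏ j, aa (th j) r (θ j)) * wh T (∑ j, 2 * Real.cos (θ j) - E) =
      2 * MM th r (2 * T) E - MM th r T E := by
  unfold MM
  rw [← integral_const_mul, ← integral_sub ((MM_int th hr (by positivity) E).const_mul 2)
    (MM_int th hr hT E)]
  refine integral_congr_ae (Filter.Eventually.of_forall fun θ => ?_)
  simp only
  rw [wh_fj hT]
  ring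

/-- the main term -/
theorem mtm {c : ℝ} (hc : 0 < c) (hcl : c ≤ r ^ 3 / 32 * (κ * r / (2 * (k + 1)) * r ^ 2) ^ k)
    {K : ℕ} (hK : 8 / κ / 2 ^ K < c / 2) {T E : ℝ} (hT : 1 ≤ T)
    (hE : ∑ j, 2 * Real.cos (th j) = E) : ∃ T' : ℝ, T ≤ T' ∧ T' ≤ 2 ^ K * T ∧
      c / 2 ≤ ∫ θ : Fin (k + 1) → ℝ, (∏ j, aa (th j) r (θ j)) *
        wh T' (∑ j, 2 * Real.cos (θ j) - E) := by
  have hr := (hm 0).hr
  have hT0 : 0 < T := by linarith
  by_contra hcon
  push Not at hcon
  have h2k : ∀ m : ℕ, (1 : ℝ) ≤ 2 ^ m := fun m => one_le_pow₀ (by norm_num)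
  have key : ∀ m : ℕ, m ≤ K → MM th r (2 ^ m * T) E ≤ 8 / κ / 2 ^ m + c / 2 := by
    intro m
    induction m with
    | zero =>
      intro _
      rw [pow_zero, one_mul, div_one]
      have := MM_upper hm hT0 E
      linarith
    | succ m ih =>
      intro hm'
      have h1 := ih (by omega)
      have h2 := hcon (2 ^ m * T) (le_mul_of_one_le_left hT0.le (h2k m))
        (mul_le_mul_of_nonneg_right (pow_le_pow_right₀ (by norm_num) (by omega)) hT0.le)
      rw [MM_wh th hr (by positivity)] at h2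
      have e1 : 2 * (2 ^ m * T) = 2 ^ (m + 1) * T := by ring
      rw [e1] at h2
      have e2 : 8 / κ / 2 ^ (m + 1) = 8 / κ / 2 ^ m / 2 := by
        rw [pow_succ, div_div _ ((2 : ℝ) ^ m)]
      rw [e2]
      linarith
  have h1 := key K le_rfl
  have h2 := MM_lower hm (T := 2 ^ K * T) (one_le_mul_of_one_le_of_one_le (h2k K) hT) hE
  linarith

end multi

end Pool.Agent.LE.H28V
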