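import Pool.Agent.Helper28_LSP.PTS
import Pool.Agent.Helper28_LSP.MTB

/-!
# KRB: the kernel bound and the main term
-/

set_option autoImplicit false

open MeasureTheory Set Complex

open scoped BigOperators

noncomputable section

namespace Pool.Agent.LE.H28V

open Pool.Agent.LE.CL

/-- the base point on the circle -/
def t0 (b : Bool) (x : ℝ) : ℝ := if b then x else Real.pi - x

theorem hh_t0 (b : Bool) (x r t : ℝ) (n : ℤ) :
    hh (t0 b x) r t n = (if b then 1 else cexp (I * (n * Real.pi : ℝ))) * cx b (hh x r t n) := by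
  cases b
  · simp only [t0, cx, Bool.false_eq_true, if_false]
    exact hh_reflect x r t n
  · simp [t0, cx]

theorem cos_t0 (b : Bool) (x : ℝ) : 2 * Real.cos (t0 b x) = sg b * (2 * Real.cos x) := by
  cases b
  · simp only [t0, sg, Bool.false_eq_true, if_false]
    rw [Real.cos_pi_sub]
    ring
  · simp [t0, sg]

theorem mp_t0 {x r κ : ℝ} (hb : Bp x r κ) (b : Bool) : Mp (t0 b x) r κ := by
  refine ⟨hb.hr, hb.hr2, hb.hκ, fun θ hθ => ?_⟩
  cases b
  · simp only [t0, Bool.false_eq_true, if_false] at hθ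
    rw [← Real.sin_pi_sub]
    exact hb.hsin _ ⟨by linarith [hθ.2], by linarith [hθ.1]⟩
  · simp only [t0, if_true] at hθ
    exact hb.hsin _ hθ

/-- KRB -/
theorem krb : KrbStmt := by
  intro d δ hd hδ
  obtain ⟨r, κ, c0, hr, hr2, hκ, hc0, hpts⟩ := pts d δ hd hδ
  obtain ⟨k, rfl⟩ : ∃ k, d = k + 1 := ⟨d - 1, by omega⟩
  set c := r ^ 3 / 32 * (κ * r / (2 * (k + 1)) * r ^ 2) ^ k with hc
  have hc1 : 0 < c := by positivity
  obtain ⟨K, hK⟩ : ∃ K : ℕ, 8 / κ / 2 ^ K < c / 2 := by
    obtain ⟨K, hK⟩ := pow_unbounded_of_one_lt (8 / κ / (c / 2)) (one_lt_two (α := ℝ))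
    refine ⟨K, ?_⟩
    rw [div_lt_iff₀ (by positivity)] at hK ⊢
    linarith
  set C1 := 4 / (κ * r) * (8 / κ) ^ (k + 1 - 1) +
    8 * (1 + ((k + 1 : ℕ) : ℝ)) * (48 / κ ^ 4) ^ (k + 1) / Real.sqrt c0 with hC1
  refine ⟨r, c / 2, max C1 (2 ^ K), hr, hr2, by positivity,
    (one_le_pow₀ (by norm_num)).trans (le_max_right _ _), fun E hE => ?_⟩
  obtain ⟨x, ε, hb, hψ, hsum⟩ := hpts E hE
  refine ⟨fun j => t0 (ε j) (x j), fun j => ?_, fun T hT n => ?_, fun T hT => ?_⟩
  · have h1 := (hb j).lo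
    have h2 := (hb j).hi
    have hπ := Real.pi_pos
    change 2 * r ≤ t0 (ε j) (x j) ∧ t0 (ε j) (x j) ≤ Real.pi - 2 * r
    generalize ε j = b
    cases b
    · simp only [t0, Bool.false_eq_true, if_false]
      exact ⟨by linarith, by linarith⟩
    · simp only [t0, if_true]
      exact ⟨by linarith, by linarith⟩
  · have hT0 : 0 < T := by linarith
    set u : ℂ := ∏ j, (if ε j then 1 else cexp (I * ((n j : ℝ) * Real.pi : ℝ))) with hu
    have hu1 : ‖u‖ = 1 := by
      rw [hu, norm_prod]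
      refine Finset.prod_eq_one fun j _ => ?_
      generalize ε j = b
      cases b
      · simp only [Bool.false_eq_true, if_false]
        exact norm_exp_I _
      · simp
    have e1 : ∫ t in T..(2 * T), cexp (I * ((t * E : ℝ) : ℂ)) *
        ∏ j, hh (t0 (ε j) (x j)) r t (n j) = u * ∫ t in T..(2 * T), fx x ε r E n t := by
      rw [← intervalIntegral.integral_const_mul]
      refine intervalIntegral.integral_congr fun t _ => ?_
      simp only [fx, hh_t0]
      rw [Finset.prod_mul_distrib, hu]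
      ring
    rw [e1, norm_mul, hu1, one_mul]
    refine (krn hb (by omega) hc0 hψ hT0 n E).trans ?_
    refine div_le_div_of_nonneg_right ?_ (by positivity)
    exact (le_of_eq hC1.symm).trans (le_max_left _ _)
  · have hE2 : ∑ j, 2 * Real.cos (t0 (ε j) (x j)) = E := by
      rw [← hsum]
      exact Finset.sum_congr rfl fun j _ => cos_t0 _ _
    obtain ⟨T', h1, h2, h3⟩ := mtm (fun j => mp_t0 (hb j) (ε j)) hc1 le_rfl hK hT hE2
    refine ⟨T', h1, h2.trans ?_, h3⟩
    exact mul_le_mul_of_nonneg_right (le_max_right _ _) (by linarith)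

end Pool.Agent.LE.H28V
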