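import Pool.Agent.Helper28_LSP.HHN

/-!
# The kernel bound for general base points
-/

set_option autoImplicit false

open MeasureTheory Set Complex

open scoped BigOperators

noncomputable section

namespace Pool.Agent.LE.H28V

open Pool.Agent.LE.CL

/-- the sign -/
def sg (b : Bool) : ℝ := if b then 1 else -1

/-- the identity or the conjugation -/
def cx (b : Bool) (z : ℂ) : ℂ := if b then z else (starRingEnd ℂ) z

theorem cx_norm (b : Bool) (z : ℂ) : ‖cx b z‖ = ‖z‖ := by
  cases b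
  · simp [cx]
  · simp [cx]

theorem cx_mul (b : Bool) (z w : ℂ) : cx b (z * w) = cx b z * cx b w := by
  cases b
  · simp [cx]
  · simp [cx]

theorem cx_exp (b : Bool) (p : ℝ) : cx b (cexp (I * p)) = cexp (I * (sg b * p : ℝ)) := by
  cases b
  · simp [cx, sg, ← Complex.exp_conj]
  · simp [cx, sg]

theorem cx_cont (b : Bool) : Continuous (cx b) := by
  cases b
  · have : cx false = fun z => (starRingEnd ℂ) z := by
      funext z
      simp [cx]
    rw [this]
    exact Complex.continuous_conj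
  · have : cx true = fun z => z := by
      funext z
      simp [cx]
    rw [this]
    exact continuous_id

theorem cx_deriv (b : Bool) {f : ℝ → ℂ} {f' : ℂ} {t : ℝ} (h : HasDerivAt f f' t) :
    HasDerivAt (fun t => cx b (f t)) (cx b f') t := by
  cases b
  · have e : (fun t => cx false (f t)) = fun t => Complex.conjCLE (f t) := by
      funext t
      simp [cx]
    have e2 : cx false f' = Complex.conjCLE f' := by simp [cx]
    rw [e, e2]
    exact (Complex.conjCLE.hasFDerivAt (x := f t)).comp_hasDerivAt t h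
  · have e : (fun t => cx true (f t)) = f := by
      funext t
      simp [cx]
    have e2 : cx true f' = f' := by simp [cx]
    rw [e, e2]
    exact h

section main

variable {d : ℕ} {x : Fin d → ℝ} {ε : Fin d → Bool} {r κ : ℝ}

/-- the integrand -/
def fx (x : Fin d → ℝ) (ε : Fin d → Bool) (r E : ℝ) (n : Fin d → ℤ) (t : ℝ) : ℂ :=
  cexp (I * (t * E : ℝ)) * ∏ j, cx (ε j) (hh (x j) r t (n j))

theorem fx_cont (x : Fin d → ℝ) (ε : Fin d → Bool) (r E : ℝ) (n : Fin d → ℤ) :
    Continuous (fx x ε r E n) := by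
  unfold fx
  refine (Complex.continuous_exp.comp (continuous_const.mul
    (Complex.continuous_ofReal.comp (by fun_prop)))).mul ?_
  refine continuous_finsetProd _ fun j _ => (cx_cont _).comp ?_
  exact continuous_iff_continuousAt.2 fun t => (hh_deriv (x j) r (n j) t).continuousAt

theorem prod_le_pow {a : Fin d → ℝ} {b : ℝ} (s : Finset (Fin d)) (h0 : ∀ j, 0 ≤ a j)
    (h : ∀ j, a j ≤ b) : ∏ j ∈ s, a j ≤ b ^ s.card := by
  calc ∏ j ∈ s, a j ≤ ∏ _j ∈ s, b := Finset.prod_le_prod (fun j _ => h0 j) fun j _ => h j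
    _ = b ^ s.card := by rw [Finset.prod_const]

/-- off the region -/
theorem off (hb : ∀ j, Bp (x j) r κ) {T t : ℝ} (hT : 0 < T) (hTt : T ≤ t) {n : Fin d → ℤ}
    {E : ℝ} (h : ¬ ∀ j, Rg (x j) r (n j) t) :
    ‖fx x ε r E n t‖ ≤ 4 / (κ * r) * (8 / κ) ^ (d - 1) / (T * Real.sqrt T ^ (d - 1)) := by
  classical
  push Not at h
  obtain ⟨j₀, hj⟩ := h
  have hκ := (hb j₀).hκ
  have hr := (hb j₀).hr
  have ht : 0 < t := hT.trans_le hTt
  have hsT : 0 < Real.sqrt T := Real.sqrt_pos.2 hT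
  have hst : Real.sqrt T ≤ Real.sqrt t := Real.sqrt_le_sqrt hTt
  unfold fx
  rw [norm_mul, norm_exp_I, one_mul, norm_prod]
  simp only [cx_norm]
  rw [← Finset.mul_prod_erase Finset.univ (fun j => ‖hh (x j) r t (n j)‖) (Finset.mem_univ j₀)]
  have h1 : ‖hh (x j₀) r t (n j₀)‖ ≤ 4 / (κ * r * T) := by
    refine ((hb j₀).h2 ht (n j₀) hj).trans ?_
    apply div_le_div_of_nonneg_left (by norm_num) (by positivity)
    exact mul_le_mul_of_nonneg_left hTt (by positivity)
  have h2 : ∏ j ∈ Finset.univ.erase j₀, ‖hh (x j) r t (n j)‖ ≤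
      (8 / (κ * Real.sqrt T)) ^ (d - 1) := by
    have h3 := prod_le_pow (a := fun j => ‖hh (x j) r t (n j)‖) (b := 8 / (κ * Real.sqrt T))
      (Finset.univ.erase j₀) (fun j => norm_nonneg _) fun j => by
        refine ((hb j).h1 ht (n j)).trans ?_
        apply div_le_div_of_nonneg_left (by norm_num) (by positivity)
        exact mul_le_mul_of_nonneg_left hst hκ.le
    rwa [Finset.card_erase_of_mem (Finset.mem_univ _), Finset.card_univ, Fintype.card_fin] at h3
  calc _ ≤ 4 / (κ * r * T) * (8 / (κ * Real.sqrt T)) ^ (d - 1) :=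
        mul_le_mul h1 h2 (Finset.prod_nonneg fun j _ => norm_nonneg _) (by positivity)
    _ = _ := by
        rw [div_pow, div_pow, mul_pow]
        field_simp

/-- in the region -/
theorem inn (hb : ∀ j, Bp (x j) r κ) (hd : 1 ≤ d) {c0 : ℝ} (hc0 : 0 < c0)
    (hψ : (∀ θ : Fin d → ℝ, (∀ j, θ j ∈ Icc (x j - 2 * r) (x j + 2 * r)) →
        c0 ≤ ∑ j, sg (ε j) * (Real.sin (θ j) ^ 2 / Real.cos (θ j))) ∨
      (∀ θ : Fin d → ℝ, (∀ j, θ j ∈ Icc (x j - 2 * r) (x j + 2 * r)) →
        ∑ j, sg (ε j) * (Real.sin (θ j) ^ 2 / Real.cos (θ j)) ≤ -c0))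
    {T T1 T2 : ℝ} (hT : 0 < T) (hT1 : T ≤ T1) (h12 : T1 ≤ T2) (hT2 : T2 ≤ 2 * T)
    {n : Fin d → ℤ} {E : ℝ} (hR : ∀ t ∈ Icc T1 T2, ∀ j, Rg (x j) r (n j) t) :
    ‖∫ t in T1..T2, fx x ε r E n t‖ ≤
      8 * (1 + d) * (48 / κ ^ 4) ^ d / Real.sqrt c0 / Real.sqrt T ^ (d - 1) := by
  classical
  have j₀ : Fin d := ⟨0, hd⟩
  have hκ := (hb j₀).hκ
  have hκ1 := (hb j₀).hκ1
  have hr := (hb j₀).hr
  have hsT : 0 < Real.sqrt T := Real.sqrt_pos.2 hT
  have hss : Real.sqrt T * Real.sqrt T = T := Real.mul_self_sqrt hT.le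
  have hpos : ∀ t ∈ Icc T1 T2, 0 < t := fun t ht => hT.trans_le (hT1.trans ht.1)
  have hTt : ∀ t ∈ Icc T1 T2, T ≤ t := fun t ht => hT1.trans ht.1
  have hst : ∀ t ∈ Icc T1 T2, Real.sqrt T ≤ Real.sqrt t := fun t ht =>
    Real.sqrt_le_sqrt (hTt t ht)
  set K := 48 / κ ^ 4 with hK
  have hK0 : 0 < K := by positivity
  have hK8 : 8 / κ ≤ K := by
    rw [hK, div_le_div_iff₀ hκ (by positivity)]
    have : κ ^ 4 ≤ κ := by
      calc κ ^ 4 = κ * κ ^ 3 := by ring
        _ ≤ κ * 1 := mul_le_mul_of_nonneg_left (pow_le_one₀ hκ.le hκ1) hκ.le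
        _ = κ := mul_one κ
    linarith
  -- the phase
  set F : ℝ → ℝ := fun t => t * E + ∑ j, sg (ε j) * p0 (n j) t with hF
  set F1 : ℝ → ℝ := fun t => E + ∑ j, sg (ε j) * -(2 * Real.cos (tha (n j) t)) with hF1
  set F2 : ℝ → ℝ := fun t => ∑ j, sg (ε j) * p2 (n j) t with hF2
  have hFd : ∀ t ∈ Icc T1 T2, HasDerivAt F (F1 t) t := by
    intro t ht
    have h1 : HasDerivAt (fun t => t * E) E t := by
      have := (hasDerivAt_id t).mul_const E
      rwa [one_mul] at this
    exact h1.add (HasDerivAt.fun_sum fun j _ =>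
      ((hb j).p0_deriv (hpos t ht) (hR t ht j)).const_mul (sg (ε j)))
  have hF1d : ∀ t ∈ Icc T1 T2, HasDerivAt F1 (F2 t) t := by
    intro t ht
    exact (HasDerivAt.fun_sum fun j _ =>
      ((hb j).p1_deriv (hpos t ht) (hR t ht j)).const_mul (sg (ε j))).const_add E
  have hF2c : ContinuousOn F2 (Icc T1 T2) := by
    intro t ht
    refine ContinuousAt.continuousWithinAt ?_
    refine tendsto_finsetSum _ fun j _ => ?_
    exact continuousAt_const.mul ((hb j).p2_cont (hpos t ht) (hR t ht j))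
  have hF2v : ∀ t, F2 t = -(2 / t) * ∑ j, sg (ε j) *
      (Real.sin (tha (n j) t) ^ 2 / Real.cos (tha (n j) t)) := by
    intro t
    simp only [hF2]
    rw [Finset.mul_sum]
    refine Finset.sum_congr rfl fun j _ => ?_
    unfold p2
    ring
  have hmem : ∀ t ∈ Icc T1 T2, ∀ j, tha (n j) t ∈ Icc (x j - 2 * r) (x j + 2 * r) :=
    fun t ht j => (hb j).tha_mem (hpos t ht) (hR t ht j)
  have hpart : ∀ y ∈ Icc T1 T2, ‖∫ t in T1..y, cexp (I * F t)‖ ≤ 8 / Real.sqrt (c0 / T) := by
    intro y hy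
    have hsub : ∀ t ∈ Icc T1 y, t ∈ Icc T1 T2 := fun t ht => ⟨ht.1, ht.2.trans hy.2⟩
    have h2T : ∀ t ∈ Icc T1 y, c0 / T ≤ 2 / t * c0 := by
      intro t ht
      have ht0 := hpos t (hsub t ht)
      rw [div_mul_eq_mul_div, div_le_div_iff₀ hT ht0]
      have : t ≤ 2 * T := (hsub t ht).2.trans hT2
      nlinarith
    rcases hψ with h | h
    · refine vdc2n (F1 := F1) (F2 := F2) hy.1 (fun t ht => hFd t (hsub t ht))
        (fun t ht => hF1d t (hsub t ht)) (hF2c.mono hsub) (by positivity) fun t ht => ?_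
      have h1 := h (fun j => tha (n j) t) (hmem t (hsub t ht))
      rw [hF2v]
      have ht0 := hpos t (hsub t ht)
      have h3 := mul_le_mul_of_nonneg_left h1 (by positivity : 0 ≤ 2 / t)
      have h4 := h2T t ht
      rw [neg_mul]
      linarith
    · refine vdc2 (F1 := F1) (F2 := F2) hy.1 (fun t ht => hFd t (hsub t ht))
        (fun t ht => hF1d t (hsub t ht)) (hF2c.mono hsub) (by positivity) fun t ht => ?_
      have h1 := h (fun j => tha (n j) t) (hmem t (hsub t ht))
      rw [hF2v]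
      have ht0 := hpos t (hsub t ht)
      have h3 := mul_le_mul_of_nonneg_left h1 (by positivity : 0 ≤ 2 / t)
      have h4 := h2T t ht
      rw [neg_mul]
      linarith
  -- the amplitude
  set G : ℝ → ℂ := fun t => ∏ j, cx (ε j) (bm (x j) r (n j) t) with hG
  set G1 : ℝ → ℂ := fun t => ∑ i, (∏ j ∈ Finset.univ.erase i, cx (ε j) (bm (x j) r (n j) t)) •
    cx (ε i) (bm1 (x i) r (n i) t) with hG1
  have hGd : ∀ t ∈ Icc T1 T2, HasDerivAt G (G1 t) t := by
    intro t ht
    exact HasDerivAt.fun_finsetProd fun j _ =>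
      cx_deriv (ε j) ((hb j).bm_deriv (hpos t ht) (hR t ht j))
  have hG1c : ContinuousOn G1 (Icc T1 T2) := by
    intro t ht
    refine ContinuousAt.continuousWithinAt ?_
    refine tendsto_finsetSum _ fun i _ => ?_
    refine Filter.Tendsto.smul ?_ ?_
    · refine tendsto_finsetProd _ fun j _ => ?_
      exact (cx_cont _).continuousAt.comp ((hb j).bm_deriv (hpos t ht) (hR t ht j)).continuousAt
    · exact (cx_cont _).continuousAt.comp ((hb i).bm1_cont (hpos t ht) (hR t ht i))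
  have hbm : ∀ t ∈ Icc T1 T2, ∀ j, ‖cx (ε j) (bm (x j) r (n j) t)‖ ≤ K / Real.sqrt T := by
    intro t ht j
    rw [cx_norm, bm_norm]
    refine ((hb j).h1 (hpos t ht) (n j)).trans ?_
    rw [← div_div]
    exact div_le_div₀ hK0.le hK8 hsT (hst t ht)
  have hbm1 : ∀ t ∈ Icc T1 T2, ∀ j, ‖cx (ε j) (bm1 (x j) r (n j) t)‖ ≤
      K / Real.sqrt T / T := by
    intro t ht j
    rw [cx_norm]
    refine ((hb j).bm1_le (hpos t ht) (hR t ht j)).trans ?_
    have ht0 := hpos t ht
    have hst0 : 0 < Real.sqrt t := hsT.trans_le (hst t ht)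
    rw [hK, div_div, div_div]
    apply div_le_div_of_nonneg_left (by norm_num) (by positivity)
    apply mul_le_mul_of_nonneg_left _ (by positivity)
    rw [mul_comm (Real.sqrt T)]
    exact mul_le_mul (hTt t ht) (hst t ht) hsT.le ht0.le
  have hGn : ∀ t ∈ Icc T1 T2, ‖G t‖ ≤ (K / Real.sqrt T) ^ d := by
    intro t ht
    simp only [hG]
    rw [norm_prod]
    have := prod_le_pow (a := fun j => ‖cx (ε j) (bm (x j) r (n j) t)‖) (b := K / Real.sqrt T)
      Finset.univ (fun j => norm_nonneg _) (hbm t ht)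
    rwa [Finset.card_univ, Fintype.card_fin] at this
  have hG1n : ∀ t ∈ Icc T1 T2, ‖G1 t‖ ≤ d * (K / Real.sqrt T) ^ d / T := by
    intro t ht
    simp only [hG1]
    refine (norm_sum_le _ _).trans ?_
    have h1 : ∀ i ∈ (Finset.univ : Finset (Fin d)),
        ‖(∏ j ∈ Finset.univ.erase i, cx (ε j) (bm (x j) r (n j) t)) •
          cx (ε i) (bm1 (x i) r (n i) t)‖ ≤ (K / Real.sqrt T) ^ d / T := by
      intro i _
      rw [norm_smul, norm_prod]
      have h2 := prod_le_pow (a := fun j => ‖cx (ε j) (bm (x j) r (n j) t)‖)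
        (b := K / Real.sqrt T) (Finset.univ.erase i) (fun j => norm_nonneg _) (hbm t ht)
      rw [Finset.card_erase_of_mem (Finset.mem_univ _), Finset.card_univ, Fintype.card_fin] at h2
      calc _ ≤ (K / Real.sqrt T) ^ (d - 1) * (K / Real.sqrt T / T) :=
            mul_le_mul h2 (hbm1 t ht i) (norm_nonneg _) (by positivity)
        _ = (K / Real.sqrt T) ^ (d - 1 + 1) / T := by rw [pow_succ]; ring
        _ = _ := by rw [Nat.sub_add_cancel hd]
    refine (Finset.sum_le_sum h1).trans (le_of_eq ?_)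
    rw [Finset.sum_const, Finset.card_univ, Fintype.card_fin, nsmul_eq_mul]
    ring
  have hint : ∫ t in T1..T2, ‖G1 t‖ ≤ d * (K / Real.sqrt T) ^ d := by
    have h1 : ∫ t in T1..T2, ‖G1 t‖ ≤ ∫ _t in T1..T2, (d * (K / Real.sqrt T) ^ d / T : ℝ) := by
      refine intervalIntegral.integral_mono_on h12 ?_ ?_ hG1n
      · refine ContinuousOn.intervalIntegrable ?_
        rw [uIcc_of_le h12]
        exact hG1c.norm
      · exact continuous_const.intervalIntegrable _ _
    rw [intervalIntegral.integral_const, smul_eq_mul] at h1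
    refine h1.trans ?_
    have h2 : T2 - T1 ≤ T := by linarith
    have h3 : 0 ≤ d * (K / Real.sqrt T) ^ d / T := by positivity
    calc (T2 - T1) * (d * (K / Real.sqrt T) ^ d / T) ≤ T * (d * (K / Real.sqrt T) ^ d / T) :=
          mul_le_mul_of_nonneg_right h2 h3
      _ = _ := by field_simp
  have hFc : ContinuousOn (fun t => cexp (I * F t)) (Icc T1 T2) := by
    refine Complex.continuous_exp.comp_continuousOn
      (continuousOn_const.mul (Complex.continuous_ofReal.comp_continuousOn ?_) :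
        ContinuousOn (fun t => I * (F t : ℂ)) (Icc T1 T2))
    exact fun t ht => (hFd t ht).continuousAt.continuousWithinAt
  have key := amp (f := fun t => cexp (I * F t)) (g := G) (g' := G1) h12 hFc hGd hG1c hpart
  have e1 : ∀ t, fx x ε r E n t = G t * cexp (I * F t) := by
    intro t
    simp only [fx, hG, hF]
    have e2 : ∀ j, cx (ε j) (hh (x j) r t (n j)) =
        cexp (I * (sg (ε j) * p0 (n j) t : ℝ)) * cx (ε j) (bm (x j) r (n j) t) := by
      intro j
      rw [hh_bm, cx_mul, cx_exp]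
    rw [Finset.prod_congr rfl fun j _ => e2 j, Finset.prod_mul_distrib, ← Complex.exp_sum,
      ← mul_assoc, ← Complex.exp_add, mul_comm]
    congr 2
    push_cast
    rw [mul_add, Finset.mul_sum]
  simp only [e1]
  refine key.trans ?_
  have h5 : 8 / Real.sqrt (c0 / T) = 8 * Real.sqrt T / Real.sqrt c0 := by
    rw [Real.sqrt_div hc0.le]
    have : 0 < Real.sqrt c0 := Real.sqrt_pos.2 hc0
    field_simp
  rw [h5]
  have hsc : 0 < Real.sqrt c0 := Real.sqrt_pos.2 hc0
  calc 8 * Real.sqrt T / Real.sqrt c0 * (‖G T2‖ + ∫ t in T1..T2, ‖G1 t‖)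
      ≤ 8 * Real.sqrt T / Real.sqrt c0 * ((K / Real.sqrt T) ^ d + d * (K / Real.sqrt T) ^ d) :=
        mul_le_mul_of_nonneg_left (add_le_add (hGn T2 (right_mem_Icc.2 h12)) hint)
          (by positivity)
    _ = _ := by
        obtain ⟨k, rfl⟩ : ∃ k, d = k + 1 := ⟨d - 1, by omega⟩
        rw [Nat.add_sub_cancel, div_pow, pow_succ (Real.sqrt T)]
        field_simp

end main

end Pool.Agent.LE.H28V
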