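import Pool.Agent.Helper28_LSP.KRN

/-!
# The kernel bound for general base points, assembled
-/

set_option autoImplicit false

open MeasureTheory Set Complex

open scoped BigOperators

noncomputable section

namespace Pool.Agent.LE.H28V

open Pool.Agent.LE.CL

section main

variable {d : ℕ} {x : Fin d → ℝ} {ε : Fin d → Bool} {r κ : ℝ}

theorem rg_conv {x r : ℝ} {n : ℤ} {s t u : ℝ} (h1 : Rg x r n s) (h2 : Rg x r n u) (hst : s ≤ t)
    (htu : t ≤ u) (hlo : 0 ≤ Real.sin (x - 2 * r)) (hhi : 0 ≤ Real.sin (x + 2 * r)) :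
    Rg x r n t := by
  constructor
  · refine le_trans ?_ h2.1
    exact mul_le_mul_of_nonneg_right (by linarith) hlo
  · refine h1.2.trans ?_
    exact mul_le_mul_of_nonneg_right (by linarith) hhi

/-- an integral over an interval where the function is small off the end points -/
theorem int_small {f : ℝ → ℂ} {a b B : ℝ} (hab : a ≤ b)
    (h : ∀ t ∈ Ioo a b, ‖f t‖ ≤ B) : ‖∫ t in a..b, f t‖ ≤ B * (b - a) := by
  have h1 := intervalIntegral.norm_integral_le_of_norm_le_const_ae (a := a) (b := b) (C := B)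
    (f := f) (by
      have h2 : ∀ᵐ t : ℝ, t ≠ b := by
        rw [ae_iff]
        simp only [not_not, Set.ofPred_eq_eq_singleton]
        exact Real.volume_singleton
      filter_upwards [h2] with t ht hm
      rw [uIoc_of_le hab] at hm
      exact h t ⟨hm.1, lt_of_le_of_ne hm.2 ht⟩)
  rwa [abs_of_nonneg (sub_nonneg.2 hab)] at h1

theorem krn (hb : ∀ j, Bp (x j) r κ) (hd : 1 ≤ d) {c0 : ℝ} (hc0 : 0 < c0)
    (hψ : (∀ θ : Fin d → ℝ, (∀ j, θ j ∈ Icc (x j - 2 * r) (x j + 2 * r)) →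
        c0 ≤ ∑ j, sg (ε j) * (Real.sin (θ j) ^ 2 / Real.cos (θ j))) ∨
      (∀ θ : Fin d → ℝ, (∀ j, θ j ∈ Icc (x j - 2 * r) (x j + 2 * r)) →
        ∑ j, sg (ε j) * (Real.sin (θ j) ^ 2 / Real.cos (θ j)) ≤ -c0))
    {T : ℝ} (hT : 0 < T) (n : Fin d → ℤ) (E : ℝ) :
    ‖∫ t in T..(2 * T), fx x ε r E n t‖ ≤
      (4 / (κ * r) * (8 / κ) ^ (d - 1) + 8 * (1 + d) * (48 / κ ^ 4) ^ d / Real.sqrt c0) /
        Real.sqrt T ^ (d - 1) := by
  have j₀ : Fin d := ⟨0, hd⟩
  have hκ := (hb j₀).hκ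
  have hr := (hb j₀).hr
  have hsT : 0 < Real.sqrt T := Real.sqrt_pos.2 hT
  have hsc : 0 < Real.sqrt c0 := Real.sqrt_pos.2 hc0
  set B := 4 / (κ * r) * (8 / κ) ^ (d - 1) / (T * Real.sqrt T ^ (d - 1)) with hB
  have hB0 : 0 < B := by positivity
  have hBT : B * T = 4 / (κ * r) * (8 / κ) ^ (d - 1) / Real.sqrt T ^ (d - 1) := by
    rw [hB]
    field_simp
  have hT2 : T ≤ 2 * T := by linarith
  have hfi : ∀ a b : ℝ, IntervalIntegrable (fx x ε r E n) volume a b := fun a b =>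
    (fx_cont x ε r E n).intervalIntegrable a b
  rw [add_div]
  set S : Set ℝ := {t | t ∈ Icc T (2 * T) ∧ ∀ j, Rg (x j) r (n j) t} with hS
  rcases S.eq_empty_or_nonempty with h0 | hne
  · have h1 : ‖∫ t in T..(2 * T), fx x ε r E n t‖ ≤ B * (2 * T - T) := by
      refine int_small hT2 fun t ht => ?_
      refine off hb hT ht.1.le fun h => ?_
      have : t ∈ S := ⟨Ioo_subset_Icc_self ht, h⟩
      rw [h0] at this
      exact this
    have e : 2 * T - T = T := by ring
    rw [e, hBT] at h1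
    refine h1.trans (le_add_of_nonneg_right ?_)
    positivity
  have hlo : ∀ j, 0 ≤ Real.sin (x j - 2 * r) := fun j =>
    hκ.le.trans ((hb j).hsin _ (left_mem_Icc.2 (by linarith)))
  have hhi : ∀ j, 0 ≤ Real.sin (x j + 2 * r) := fun j =>
    hκ.le.trans ((hb j).hsin _ (right_mem_Icc.2 (by linarith)))
  have hcl : IsClosed {t : ℝ | ∀ j, Rg (x j) r (n j) t} := by
    rw [Set.ofPred_forall]
    refine isClosed_iInter fun j => ?_
    have c1 : Continuous fun t : ℝ => 2 * t * Real.sin (x j - 2 * r) := by fun_prop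
    have c2 : Continuous fun t : ℝ => 2 * t * Real.sin (x j + 2 * r) := by fun_prop
    exact (isClosed_le c1 continuous_const).inter (isClosed_le continuous_const c2)
  have hcomp : IsCompact S := isCompact_Icc.inter_right hcl
  obtain ⟨hT1a, hT1b⟩ := hcomp.sInf_mem hne
  obtain ⟨hT2a, hT2b⟩ := hcomp.sSup_mem hne
  set T1 := sInf S with hT1
  set T2 := sSup S with hT2'
  have hle : T1 ≤ T2 := (csInf_le hcomp.bddBelow hne.some_mem).trans (le_csSup hcomp.bddAbove hne.some_mem)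
  have hbelow : ∀ t ∈ S, T1 ≤ t := fun t ht => csInf_le hcomp.bddBelow ht
  have habove : ∀ t ∈ S, t ≤ T2 := fun t ht => le_csSup hcomp.bddAbove ht
  have hsplit : ∫ t in T..(2 * T), fx x ε r E n t = (∫ t in T..T1, fx x ε r E n t) +
      (∫ t in T1..T2, fx x ε r E n t) + ∫ t in T2..(2 * T), fx x ε r E n t := by
    rw [intervalIntegral.integral_add_adjacent_intervals (hfi _ _) (hfi _ _),
      intervalIntegral.integral_add_adjacent_intervals (hfi _ _) (hfi _ _)]
  have p1 : ‖∫ t in T..T1, fx x ε r E n t‖ ≤ B * (T1 - T) := by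
    refine int_small hT1a.1 fun t ht => ?_
    refine off hb hT ht.1.le fun h => ?_
    exact absurd (hbelow t ⟨⟨ht.1.le, ht.2.le.trans hT1a.2⟩, h⟩) (not_le.2 ht.2)
  have p3 : ‖∫ t in T2..(2 * T), fx x ε r E n t‖ ≤ B * (2 * T - T2) := by
    refine int_small hT2a.2 fun t ht => ?_
    refine off hb hT (hT2a.1.trans ht.1.le) fun h => ?_
    exact absurd (habove t ⟨⟨hT2a.1.trans ht.1.le, ht.2.le⟩, h⟩) (not_le.2 ht.1)
  have p2 := inn (E := E) hb hd hc0 hψ hT hT1a.1 hle hT2a.2 (n := n) (fun t ht j =>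
    rg_conv (hT1b j) (hT2b j) ht.1 ht.2 (hlo j) (hhi j))
  rw [hsplit]
  calc _ ≤ ‖∫ t in T..T1, fx x ε r E n t‖ + ‖∫ t in T1..T2, fx x ε r E n t‖ +
      ‖∫ t in T2..(2 * T), fx x ε r E n t‖ := norm_add₃_le
    _ ≤ B * (T1 - T) + 8 * (1 + d) * (48 / κ ^ 4) ^ d / Real.sqrt c0 / Real.sqrt T ^ (d - 1) +
        B * (2 * T - T2) := add_le_add (add_le_add p1 p2) p3
    _ ≤ B * T + 8 * (1 + d) * (48 / κ ^ 4) ^ d / Real.sqrt c0 / Real.sqrt T ^ (d - 1) := by
        have : B * (T1 - T) + B * (2 * T - T2) ≤ B * T := by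
          rw [← mul_add]
          apply mul_le_mul_of_nonneg_left _ hB0.le
          linarith
        linarith
    _ = _ := by rw [hBT]

end main

end Pool.Agent.LE.H28V
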