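import Pool.Agent.LE.StmtsK

/-!
# The main term, one coordinate
-/

set_option autoImplicit false

open MeasureTheory Set

open scoped BigOperators

noncomputable section

namespace Pool.Agent.LE.H28V

open Pool.Agent.LE.CL

/-- the Fejér kernel -/
def fj (T x : ℝ) : ℝ := 2 * (1 - Real.cos (T * x)) / (T * x ^ 2)

theorem fj_nonneg {T : ℝ} (hT : 0 < T) (x : ℝ) : 0 ≤ fj T x := by
  unfold fj
  have := Real.cos_le_one (T * x)
  exact div_nonneg (by linarith) (by positivity)

theorem fj_le {T : ℝ} (hT : 0 < T) (x : ℝ) : fj T x ≤ T := by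
  unfold fj
  rcases eq_or_ne x 0 with rfl | hx
  · simp
    exact hT.le
  · have h1 : 0 < x ^ 2 := by positivity
    rw [div_le_iff₀ (by positivity)]
    have := Real.one_sub_sq_div_two_le_cos (x := T * x)
    nlinarith

theorem fj_le2 {T : ℝ} (hT : 0 < T) (x : ℝ) : fj T x * (T * x ^ 2) ≤ 4 := by
  unfold fj
  rcases eq_or_ne x 0 with rfl | hx
  · simp
  · have h1 : 0 < x ^ 2 := by positivity
    rw [div_mul_cancel₀ _ (by positivity)]
    have := Real.neg_one_le_cos (T * x)
    linarith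

theorem fj_ge {T : ℝ} (hT : 0 < T) {x : ℝ} (hx : x ≠ 0) (h : |x| ≤ 1 / T) : T / 4 ≤ fj T x := by
  unfold fj
  have h1 : 0 < x ^ 2 := by positivity
  rw [le_div_iff₀ (by positivity)]
  have hπ := Real.pi_gt_three
  have hπ4 := Real.pi_le_four
  have h2 : |T * x| ≤ Real.pi := by
    rw [abs_mul, abs_of_pos hT]
    have : T * |x| ≤ T * (1 / T) := mul_le_mul_of_nonneg_left h hT.le
    rw [mul_one_div_cancel hT.ne'] at this
    linarith
  have h3 := Real.cos_le_one_sub_mul_cos_sq h2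
  have h4 : 1 / 8 ≤ 2 / Real.pi ^ 2 := by
    rw [div_le_div_iff₀ (by norm_num) (by positivity)]
    nlinarith
  have h5 : 1 / 8 * (T * x) ^ 2 ≤ 2 / Real.pi ^ 2 * (T * x) ^ 2 :=
    mul_le_mul_of_nonneg_right h4 (sq_nonneg _)
  nlinarith

theorem fj_meas (T : ℝ) : Measurable (fj T) := by
  unfold fj
  fun_prop

theorem wh_fj {T : ℝ} (hT : 0 < T) (x : ℝ) : wh T x = 2 * fj (2 * T) x - fj T x := by
  unfold wh fj
  rcases eq_or_ne x 0 with rfl | hx
  · simp
  · field_simp
    ring

/-- the comparison function -/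
theorem fj_cmp {T κ s x : ℝ} (hT : 0 < T) (hκ : 0 < κ) (h : 2 * κ * |s| ≤ |x|) :
    fj T x ≤ 2 * T / (1 + (κ * T * s) ^ 2) := by
  have h0 := fj_nonneg hT x
  have h1 := fj_le hT x
  have h2 := fj_le2 hT x
  rw [le_div_iff₀ (by positivity)]
  have h3 : 4 * κ ^ 2 * s ^ 2 ≤ x ^ 2 := by
    have := pow_le_pow_left₀ (by positivity) h 2
    rw [mul_pow, mul_pow, sq_abs, sq_abs] at this
    linarith
  have h4 : fj T x * (κ * T * s) ^ 2 ≤ T := by
    have h5 : fj T x * (T * (4 * κ ^ 2 * s ^ 2)) ≤ 4 :=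
      le_trans (mul_le_mul_of_nonneg_left (mul_le_mul_of_nonneg_left h3 hT.le) h0) h2
    have h6 : fj T x * (κ * T * s) ^ 2 = T / 4 * (fj T x * (T * (4 * κ ^ 2 * s ^ 2))) := by ring
    rw [h6]
    calc T / 4 * (fj T x * (T * (4 * κ ^ 2 * s ^ 2))) ≤ T / 4 * 4 :=
          mul_le_mul_of_nonneg_left h5 (by positivity)
      _ = T := by ring
  linarith

/-- the conditions for the main term -/
structure Mp (x r κ : ℝ) : Prop where
  hr : 0 < r
  hr2 : r ≤ 1 / 2
  hκ : 0 < κ
  hsin : ∀ θ ∈ Icc (x - 2 * r) (x + 2 * r), κ ≤ Real.sin θ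

section mp

variable {x r κ : ℝ} (hm : Mp x r κ)
include hm

theorem Mp.mono {p q : ℝ} (hp : p ∈ Icc (x - 2 * r) (x + 2 * r))
    (hq : q ∈ Icc (x - 2 * r) (x + 2 * r)) (hpq : p ≤ q) :
    2 * κ * (q - p) ≤ 2 * Real.cos p - 2 * Real.cos q := by
  have h := (convex_Icc (x - 2 * r) (x + 2 * r)).mul_sub_le_image_sub_of_le_deriv
    (f := fun θ => -Real.cos θ) (C := κ) Real.continuous_cos.neg.continuousOn
    Real.differentiable_cos.neg.differentiableOn ?_ p hp q hq hpq
  · linarith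
  · intro z hz
    rw [interior_Icc] at hz
    have : deriv (fun θ => -Real.cos θ) z = Real.sin z := by
      have := (Real.hasDerivAt_cos z).fun_neg.deriv
      rw [this, neg_neg]
    rw [this]
    exact hm.hsin z (Ioo_subset_Icc_self hz)

theorem Mp.sub {θ : ℝ} (h : θ ∈ Icc (x - r) (x + r)) : θ ∈ Icc (x - 2 * r) (x + 2 * r) :=
  ⟨by linarith [h.1, hm.hr], by linarith [h.2, hm.hr]⟩

/-- the centre -/
theorem Mp.centre (b : ℝ) : ∃ s ∈ Icc (x - r) (x + r), ∀ θ ∈ Icc (x - r) (x + r),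
    2 * κ * |θ - s| ≤ |2 * Real.cos θ + b| := by
  have hr := hm.hr
  have hκ := hm.hκ
  have hab : x - r ≤ x + r := by linarith
  have hc : ContinuousOn (fun θ => 2 * Real.cos θ + b) (Icc (x - r) (x + r)) :=
    Continuous.continuousOn (by fun_prop)
  have hgr : ∀ p ∈ Icc (x - r) (x + r), ∀ q ∈ Icc (x - r) (x + r), p ≤ q →
      2 * κ * (q - p) ≤ (2 * Real.cos p + b) - (2 * Real.cos q + b) := by
    intro p hp q hq hpq
    have := hm.mono (hm.sub hp) (hm.sub hq) hpq
    linarith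
  by_cases h0 : 2 * Real.cos (x - r) + b ≤ 0
  · refine ⟨x - r, left_mem_Icc.2 hab, fun θ hθ => ?_⟩
    have h1 := hgr (x - r) (left_mem_Icc.2 hab) θ hθ hθ.1
    rw [abs_of_nonneg (by linarith [hθ.1])]
    refine le_trans ?_ (neg_le_abs _)
    linarith
  by_cases h1 : 0 ≤ 2 * Real.cos (x + r) + b
  · refine ⟨x + r, right_mem_Icc.2 hab, fun θ hθ => ?_⟩
    have h2 := hgr θ hθ (x + r) (right_mem_Icc.2 hab) hθ.2
    rw [abs_of_nonpos (by linarith [hθ.2])]
    refine le_trans ?_ (le_abs_self _)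
    linarith
  push Not at h0 h1
  obtain ⟨s, hs, hz⟩ := intermediate_value_Icc' hab hc
    (show (0 : ℝ) ∈ Icc (2 * Real.cos (x + r) + b) (2 * Real.cos (x - r) + b) from
      ⟨h1.le, h0.le⟩)
  refine ⟨s, hs, fun θ hθ => ?_⟩
  simp only at hz
  rcases le_total θ s with h2 | h2
  · have h3 := hgr θ hθ s hs h2
    rw [abs_of_nonpos (by linarith)]
    refine le_trans ?_ (le_abs_self _)
    linarith
  · have h3 := hgr s hs θ hθ h2
    rw [abs_of_nonneg (by linarith)]
    refine le_trans ?_ (neg_le_abs _)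
    linarith

/-- the upper bound -/
theorem Mp.upper {T : ℝ} (hT : 0 < T) (b : ℝ) :
    ∫ θ in (x - r)..(x + r), fj T (2 * Real.cos θ + b) ≤ 8 / κ := by
  have hr := hm.hr
  have hκ := hm.hκ
  have hab : x - r ≤ x + r := by linarith
  obtain ⟨s, hs, h⟩ := hm.centre b
  have hden : ∀ θ : ℝ, 1 + (κ * T * (θ - s)) ^ 2 ≠ 0 := fun θ => by positivity
  have hcc : Continuous fun θ : ℝ => 2 * T / (1 + (κ * T * (θ - s)) ^ 2) :=
    continuous_const.div (by fun_prop) hden
  have h1 : ∫ θ in (x - r)..(x + r), fj T (2 * Real.cos θ + b) ≤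
      ∫ θ in (x - r)..(x + r), 2 * T / (1 + (κ * T * (θ - s)) ^ 2) := by
    refine intervalIntegral.integral_mono_on hab ?_ (hcc.intervalIntegrable _ _) ?_
    · refine (intervalIntegrable_const (c := T)).mono_fun ?_ ?_
      · exact ((fj_meas T).comp (by fun_prop)).aestronglyMeasurable
      · refine Filter.Eventually.of_forall fun θ => ?_
        change ‖fj T (2 * Real.cos θ + b)‖ ≤ ‖T‖
        rw [Real.norm_of_nonneg (fj_nonneg hT _), Real.norm_of_nonneg hT.le]
        exact fj_le hT _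
    · intro θ hθ
      exact fj_cmp hT hκ (h θ hθ)
  have h2 : ∫ θ in (x - r)..(x + r), 2 * T / (1 + (κ * T * (θ - s)) ^ 2) =
      2 / κ * Real.arctan (κ * T * (x + r - s)) - 2 / κ * Real.arctan (κ * T * (x - r - s)) := by
    refine intervalIntegral.integral_eq_sub_of_hasDerivAt
      (f := fun θ => 2 / κ * Real.arctan (κ * T * (θ - s))) (fun θ _ => ?_)
      (hcc.intervalIntegrable _ _)
    have h3 := ((Real.hasDerivAt_arctan (κ * T * (θ - s))).comp θ
      (((hasDerivAt_id θ).sub_const s).const_mul (κ * T))).const_mul (2 / κ)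
    refine HasDerivAt.congr_deriv (f := fun θ => 2 / κ * Real.arctan (κ * T * (θ - s))) h3 ?_
    field_simp
  rw [h2] at h1
  have h3 := Real.arctan_lt_pi_div_two (κ * T * (x + r - s))
  have h4 := Real.neg_pi_div_two_lt_arctan (κ * T * (x - r - s))
  have hπ4 := Real.pi_le_four
  have h5 : 2 / κ * Real.arctan (κ * T * (x + r - s)) - 2 / κ * Real.arctan (κ * T * (x - r - s)) =
      2 / κ * (Real.arctan (κ * T * (x + r - s)) - Real.arctan (κ * T * (x - r - s))) := by ring
  rw [h5] at h1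
  refine h1.trans ?_
  calc 2 / κ * (Real.arctan (κ * T * (x + r - s)) - Real.arctan (κ * T * (x - r - s)))
      ≤ 2 / κ * 4 := mul_le_mul_of_nonneg_left (by linarith) (by positivity)
    _ = 8 / κ := by ring

end mp

/-! ### the cut-off -/

theorem aa_nonneg (x r θ : ℝ) : 0 ≤ aa x r θ := le_max_right _ _

theorem aa_cont (x r : ℝ) : Continuous (aa x r) := by
  unfold aa
  fun_prop

theorem aa_le {x r : ℝ} (hr : 0 < r) (hr2 : r ≤ 1 / 2) (θ : ℝ) : aa x r θ ≤ 1 := by
  unfold aa
  refine max_le ?_ zero_le_one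
  nlinarith [sq_nonneg (θ - x)]

theorem aa_off {x r θ : ℝ} (hr : 0 < r) (h : θ ∉ Icc (x - r) (x + r)) : aa x r θ = 0 := by
  unfold aa
  refine max_eq_right ?_
  by_contra hc
  push Not at hc
  apply h
  have h1 : (θ - x) ^ 2 < r ^ 2 := by linarith
  have h2 := abs_lt.1 (abs_lt_of_sq_lt_sq h1 hr.le)
  exact ⟨by linarith [h2.1], by linarith [h2.2]⟩

theorem aa_supp {x r : ℝ} (hr : 0 < r) : HasCompactSupport (aa x r) :=
  HasCompactSupport.intro isCompact_Icc fun _ h => aa_off hr h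

theorem aa_int {x r : ℝ} (hr : 0 < r) : Integrable (aa x r) :=
  (aa_cont x r).integrable_of_hasCompactSupport (aa_supp hr)

theorem aa_ge {x r ρ θ : ℝ} (hρ : |θ - x| ≤ ρ) (h : ρ ^ 2 ≤ r ^ 2 / 2) :
    r ^ 2 / 2 ≤ aa x r θ := by
  unfold aa
  refine le_trans ?_ (le_max_left _ _)
  have h1 : (θ - x) ^ 2 ≤ ρ ^ 2 := by
    rw [← sq_abs]
    exact pow_le_pow_left₀ (abs_nonneg _) hρ 2
  linarith

/-- the one dimensional integral -/
def J (x r T b : ℝ) : ℝ := ∫ θ, aa x r θ * fj T (2 * Real.cos θ + b)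

theorem J_eq {x r : ℝ} (hr : 0 < r) (T b : ℝ) :
    J x r T b = ∫ θ in (x - r)..(x + r), aa x r θ * fj T (2 * Real.cos θ + b) := by
  have hab : x - r ≤ x + r := by linarith
  unfold J
  rw [intervalIntegral.integral_of_le hab, ← integral_Icc_eq_integral_Ioc,
    setIntegral_eq_integral_of_forall_compl_eq_zero]
  intro θ hθ
  rw [aa_off hr hθ, zero_mul]

theorem J_nonneg {x r T : ℝ} (hT : 0 < T) (b : ℝ) : 0 ≤ J x r T b :=
  integral_nonneg fun θ => mul_nonneg (aa_nonneg _ _ _) (fj_nonneg hT _)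

theorem J_intble {x r T : ℝ} (hr : 0 < r) (hT : 0 < T) (b : ℝ) :
    Integrable fun θ => aa x r θ * fj T (2 * Real.cos θ + b) := by
  refine (aa_int hr).mul_bdd (c := T) ?_ ?_
  · exact ((fj_meas T).comp (by fun_prop)).aestronglyMeasurable
  · refine Filter.Eventually.of_forall fun θ => ?_
    rw [Real.norm_of_nonneg (fj_nonneg hT _)]
    exact fj_le hT _

section mp

variable {x r κ : ℝ} (hm : Mp x r κ)
include hm

theorem Mp.J_upper {T : ℝ} (hT : 0 < T) (b : ℝ) : J x r T b ≤ 8 / κ := by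
  have hr := hm.hr
  have hab : x - r ≤ x + r := by linarith
  rw [J_eq hr]
  refine le_trans ?_ (hm.upper hT b)
  refine intervalIntegral.integral_mono_on hab (J_intble hr hT b).intervalIntegrable ?_ ?_
  · refine (intervalIntegrable_const (c := T)).mono_fun ?_ ?_
    · exact ((fj_meas T).comp (by fun_prop)).aestronglyMeasurable
    · refine Filter.Eventually.of_forall fun θ => ?_
      change ‖fj T (2 * Real.cos θ + b)‖ ≤ ‖T‖
      rw [Real.norm_of_nonneg (fj_nonneg hT _), Real.norm_of_nonneg hT.le]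
      exact fj_le hT _
  · intro θ _
    calc aa x r θ * fj T (2 * Real.cos θ + b) ≤ 1 * fj T (2 * Real.cos θ + b) :=
          mul_le_mul_of_nonneg_right (aa_le hr hm.hr2 θ) (fj_nonneg hT _)
      _ = _ := one_mul _

theorem Mp.J_lower {T : ℝ} (hT : 1 ≤ T) {b : ℝ} (hb : |2 * Real.cos x + b| ≤ κ * r) :
    r ^ 3 / 32 ≤ J x r T b := by
  have hr := hm.hr
  have hκ := hm.hκ
  have hT0 : 0 < T := by linarith
  have hx : x ∈ Icc (x - 2 * r) (x + 2 * r) := ⟨by linarith, by linarith⟩
  have hp : x - r / 2 ∈ Icc (x - 2 * r) (x + 2 * r) := ⟨by linarith, by linarith⟩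
  have hq : x + r / 2 ∈ Icc (x - 2 * r) (x + 2 * r) := ⟨by linarith, by linarith⟩
  have h1 := hm.mono hp hx (by linarith)
  have h2 := hm.mono hx hq (by linarith)
  have hb' := abs_le.1 hb
  have hc : ContinuousOn (fun θ => 2 * Real.cos θ + b) (Icc (x - r / 2) (x + r / 2)) :=
    Continuous.continuousOn (by fun_prop)
  obtain ⟨s, hs, hz⟩ := intermediate_value_Icc' (by linarith : x - r / 2 ≤ x + r / 2) hc
    (show (0 : ℝ) ∈ Icc (2 * Real.cos (x + r / 2) + b) (2 * Real.cos (x - r / 2) + b) from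
      ⟨by nlinarith, by nlinarith⟩)
  simp only at hz
  set q := r / (4 * T) with hq'
  have hq0 : 0 < q := by positivity
  have hq1 : q ≤ r / 4 := by
    rw [hq']
    apply div_le_div_of_nonneg_left hr.le (by norm_num)
    linarith
  have hq2 : 2 * q ≤ 1 / T := by
    rw [hq', le_div_iff₀ hT0]
    have : 2 * (r / (4 * T)) * T = r / 2 := by field_simp; norm_num
    rw [this]
    linarith [hm.hr2]
  have hsm : s ∈ Icc (x - 2 * r) (x + 2 * r) := ⟨by linarith [hs.1], by linarith [hs.2]⟩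
  have hval : ∀ θ ∈ Icc (s - q) (s + q), θ ≠ s → T * r ^ 2 / 16 ≤
      aa x r θ * fj T (2 * Real.cos θ + b) := by
    intro θ hθ hne
    have hθm : θ ∈ Icc (x - 2 * r) (x + 2 * r) :=
      ⟨by linarith [hθ.1, hs.1], by linarith [hθ.2, hs.2]⟩
    have hθs : |θ - s| ≤ q := abs_le.2 ⟨by linarith [hθ.1], by linarith [hθ.2]⟩
    have hu : 2 * Real.cos θ + b ≠ 0 := by
      intro h0
      apply hne
      rcases le_total θ s with h | h
      · have := hm.mono hθm hsm h
        have h3 : s - θ ≤ 0 := by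
          by_contra hcon
          push Not at hcon
          have : 0 < 2 * κ * (s - θ) := by positivity
          linarith
        linarith
      · have := hm.mono hsm hθm h
        have h3 : θ - s ≤ 0 := by
          by_contra hcon
          push Not at hcon
          have : 0 < 2 * κ * (θ - s) := by positivity
          linarith
        linarith
    have hu2 : |2 * Real.cos θ + b| ≤ 1 / T := by
      have h3 : |Real.cos θ - Real.cos s| ≤ |θ - s| := Real.abs_cos_sub_cos_le θ s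
      have h4 : 2 * Real.cos θ + b = 2 * (Real.cos θ - Real.cos s) := by linarith
      rw [h4, abs_mul, abs_two]
      linarith
    have h5 := fj_ge hT0 hu hu2
    have h6 : r ^ 2 / 4 ≤ aa x r θ * 1 := by
      rw [mul_one]
      unfold aa
      refine le_trans ?_ (le_max_left _ _)
      have h7 : |θ - x| ≤ 3 * r / 4 := abs_le.2
        ⟨by linarith [hθ.1, hs.1], by linarith [hθ.2, hs.2]⟩
      have h8 : (θ - x) ^ 2 ≤ (3 * r / 4) ^ 2 := by
        rw [← sq_abs]
        exact pow_le_pow_left₀ (abs_nonneg _) h7 2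
      nlinarith [mul_pos hr hr]
    rw [mul_one] at h6
    calc T * r ^ 2 / 16 = r ^ 2 / 4 * (T / 4) := by ring
      _ ≤ _ := mul_le_mul h6 h5 (by positivity) (aa_nonneg _ _ _)
  have h9 : ∫ θ in Icc (s - q) (s + q), (T * r ^ 2 / 16 : ℝ) ≤ J x r T b := by
    unfold J
    refine le_trans ?_ (setIntegral_le_integral (s := Icc (s - q) (s + q)) (J_intble hr hT0 b)
      (Filter.Eventually.of_forall fun θ => mul_nonneg (aa_nonneg _ _ _) (fj_nonneg hT0 _)))
    refine setIntegral_mono_ae_restrict ?_ (J_intble hr hT0 b).integrableOn ?_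
    · exact integrableOn_const (by rw [Real.volume_Icc]; exact ENNReal.ofReal_ne_top)
    · have hne : ∀ᵐ θ : ℝ, θ ≠ s := by
        rw [ae_iff]
        simp only [not_not, Set.ofPred_eq_eq_singleton]
        exact Real.volume_singleton
      filter_upwards [ae_restrict_mem measurableSet_Icc, ae_restrict_of_ae hne] with θ h1 h2
      exact hval θ h1 h2
  rw [setIntegral_const, Real.volume_real_Icc_of_le (by linarith), smul_eq_mul] at h9
  refine le_trans (le_of_eq ?_) h9
  rw [hq']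
  field_simp
  ring

end mp

end Pool.Agent.LE.H28V
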