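import Pool.Agent.Helper28_LSP.KRO

/-!
# The choice of the base points
-/

set_option autoImplicit false

open MeasureTheory Set Complex

open scoped BigOperators

noncomputable section

namespace Pool.Agent.LE.H28V

open Pool.Agent.LE.CL

/-- the conditions for one coordinate from the cosine -/
theorem bp_arccos {d : ℕ} (hd : 3 ≤ d) {δ c : ℝ} (hδ : 0 < δ) (hδ2 : δ ≤ 1 / 2)
    (hc1 : 1 / (2 * d : ℝ) ≤ c) (hc2 : c ≤ 1 - δ) :
    Bp (Real.arccos c) (δ / (36 * d ^ 3)) (min (1 / (4 * d)) (δ / 2)) ∧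
      ∀ θ ∈ Icc (Real.arccos c - 2 * (δ / (36 * d ^ 3))) (Real.arccos c + 2 * (δ / (36 * d ^ 3))),
        |Real.sin θ ^ 2 / Real.cos θ - (1 / c - c)| ≤ δ / (2 * d) := by
  have hd0 : (3 : ℝ) ≤ d := by exact_mod_cast hd
  have hdp : (0 : ℝ) < d := by linarith
  set r := δ / (36 * (d : ℝ) ^ 3) with hr
  have hr0 : 0 < r := by positivity
  have hd3 : (27 : ℝ) ≤ (d : ℝ) ^ 3 := by
    have := pow_le_pow_left₀ (by norm_num) hd0 3
    linarith
  have hd22 : (9 : ℝ) ≤ (d : ℝ) ^ 2 := by nlinarith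
  have hd32 : (9 : ℝ) * d ≤ (d : ℝ) ^ 3 := by
    have : (d : ℝ) ^ 3 = (d : ℝ) ^ 2 * d := by ring
    rw [this]
    exact mul_le_mul_of_nonneg_right hd22 hdp.le
  have hrδ : r * (36 * (d : ℝ) ^ 3) = δ := by
    rw [hr]
    field_simp
  have hr4 : 4 * r ≤ δ := by nlinarith
  have hr8 : 8 * (d : ℝ) * r ≤ 1 := by nlinarith
  have hc0 : 0 < c := lt_of_lt_of_le (by positivity) hc1
  have hcx : Real.cos (Real.arccos c) = c := Real.cos_arccos (by linarith) (by linarith)
  set x := Real.arccos c with hx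
  have hx0 : 0 ≤ x := Real.arccos_nonneg c
  have hxπ : x ≤ Real.pi := Real.arccos_le_pi c
  have hsx0 : 0 ≤ Real.sin x := Real.sin_nonneg_of_nonneg_of_le_pi hx0 hxπ
  have hsx : δ ≤ Real.sin x := by
    have h1 := Real.sin_sq_add_cos_sq x
    rw [hcx] at h1
    have h2 : δ ≤ Real.sin x ^ 2 := by nlinarith
    have h3 := Real.sin_le_one x
    nlinarith
  have hlip : ∀ θ ∈ Icc (x - 2 * r) (x + 2 * r), |Real.cos θ - c| ≤ 2 * r ∧
      |Real.sin θ - Real.sin x| ≤ 2 * r := by
    intro θ hθ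
    have h0 : |θ - x| ≤ 2 * r := abs_le.2 ⟨by linarith [hθ.1], by linarith [hθ.2]⟩
    constructor
    · rw [← hcx]
      exact (Real.abs_cos_sub_cos_le θ x).trans h0
    · exact (Real.abs_sin_sub_sin_le θ x).trans h0
  have hcθ : ∀ θ ∈ Icc (x - 2 * r) (x + 2 * r), 1 / (4 * d : ℝ) ≤ Real.cos θ := by
    intro θ hθ
    have h1 := (abs_le.1 (hlip θ hθ).1).1
    have h2 : 1 / (2 * d : ℝ) = 2 * (1 / (4 * d)) := by field_simp; norm_num
    have h3 : 2 * r ≤ 1 / (4 * d : ℝ) := by
      rw [le_div_iff₀ (by positivity)]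
      nlinarith
    linarith
  refine ⟨⟨hr0, ?_, ?_, ?_, ?_, ?_, ?_, ?_⟩, ?_⟩
  · linarith
  · exact lt_min (by positivity) (by positivity)
  · exact (min_le_right _ _).trans (by linarith)
  · have h1 : Real.sin x ≤ x := Real.sin_le hx0
    linarith
  · have h1 : Real.cos x ≤ Real.pi / 2 - x := by
      rw [← Real.sin_pi_div_two_sub]
      apply Real.sin_le
      have : x ≤ Real.pi / 2 := by
        rw [hx]
        exact Real.arccos_le_pi_div_two.2 hc0.le
      linarith
    rw [hcx] at h1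
    have h2 : 2 * r ≤ 1 / (2 * d : ℝ) := by
      rw [le_div_iff₀ (by positivity)]
      nlinarith
    linarith
  · intro θ hθ
    exact (min_le_left _ _).trans (hcθ θ hθ)
  · intro θ hθ
    refine (min_le_right _ _).trans ?_
    have h1 := (abs_le.1 (hlip θ hθ).2).1
    linarith
  · intro θ hθ
    have h1 := hcθ θ hθ
    have h2 : 0 < Real.cos θ := lt_of_lt_of_le (by positivity) h1
    have h3 := (hlip θ hθ).1
    have e1 : Real.sin θ ^ 2 / Real.cos θ - (1 / c - c) =
        (c - Real.cos θ) / (Real.cos θ * c) + (c - Real.cos θ) := by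
      have h4 : Real.sin θ ^ 2 = 1 - Real.cos θ ^ 2 := by
        have := Real.sin_sq_add_cos_sq θ
        linarith
      rw [h4]
      field_simp
      ring
    rw [e1]
    refine (abs_add_le _ _).trans ?_
    have h5 : |c - Real.cos θ| ≤ 2 * r := by rw [abs_sub_comm]; exact h3
    have h6 : |(c - Real.cos θ) / (Real.cos θ * c)| ≤ 2 * r * (8 * d ^ 2) := by
      rw [abs_div, abs_of_pos (mul_pos h2 hc0), div_le_iff₀ (mul_pos h2 hc0)]
      have h7 : 1 / (4 * d : ℝ) * (1 / (2 * d)) ≤ Real.cos θ * c :=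
        mul_le_mul h1 hc1 (by positivity) h2.le
      have h8 : 1 / (4 * d : ℝ) * (1 / (2 * d)) * (8 * d ^ 2) = 1 := by
        field_simp
        norm_num
      calc |c - Real.cos θ| ≤ 2 * r := h5
        _ = 2 * r * (1 / (4 * d : ℝ) * (1 / (2 * d)) * (8 * d ^ 2)) := by rw [h8, mul_one]
        _ ≤ 2 * r * (Real.cos θ * c * (8 * d ^ 2)) := by
            apply mul_le_mul_of_nonneg_left _ (by positivity)
            exact mul_le_mul_of_nonneg_right h7 (by positivity)
        _ = _ := by ring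
    have h9 : 2 * r * (8 * (d : ℝ) ^ 2) + 2 * r ≤ δ / (2 * d) := by
      rw [le_div_iff₀ (by positivity), ← hrδ]
      have : (1 : ℝ) ≤ (d : ℝ) ^ 2 := by nlinarith
      have h10 : (2 * r * (8 * (d : ℝ) ^ 2) + 2 * r) * (2 * d) =
          r * (32 * (d : ℝ) ^ 3 + 4 * d) := by ring
      rw [h10]
      apply mul_le_mul_of_nonneg_left _ hr0.le
      nlinarith
    linarith

/-- the points for nonnegative energies -/
theorem pts_pos {d : ℕ} (hd : 3 ≤ d) {δ E : ℝ} (hδ : 0 < δ) (hδ2 : δ ≤ 1 / 2) (hE0 : 0 ≤ E)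
    (hE : E ≤ 2 * d * (1 - δ)) :
    ∃ (c : Fin d → ℝ) (ε : Fin d → Bool), (∀ j, 1 / (2 * d : ℝ) ≤ c j ∧ c j ≤ 1 - δ) ∧
      δ ≤ ∑ j, sg (ε j) * (1 / c j - c j) ∧ ∑ j, sg (ε j) * (2 * c j) = E := by
  classical
  have hd0 : (3 : ℝ) ≤ d := by exact_mod_cast hd
  have hdp : (0 : ℝ) < d := by linarith
  by_cases h : 1 ≤ E
  · refine ⟨fun _ => E / (2 * d), fun _ => true, fun j => ⟨?_, ?_⟩, ?_, ?_⟩
    · exact div_le_div_of_nonneg_right h (by positivity)
    · rw [div_le_iff₀ (by positivity)]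
      linarith
    · simp only [sg, if_true, one_mul, Finset.sum_const, Finset.card_univ, Fintype.card_fin,
        nsmul_eq_mul]
      have hc : E / (2 * d) ≤ 1 - δ := by
        rw [div_le_iff₀ (by positivity)]
        linarith
      have hc0 : 0 < E / (2 * d) := by positivity
      have h1 : 1 ≤ 1 / (E / (2 * d)) := by
        rw [le_div_iff₀ hc0]
        linarith
      have h2 : δ ≤ 1 / (E / (2 * d)) - E / (2 * d) := by linarith
      nlinarith
    · simp only [sg, if_true, one_mul, Finset.sum_const, Finset.card_univ, Fintype.card_fin,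
        nsmul_eq_mul]
      field_simp
  · push Not at h
    obtain ⟨k, rfl⟩ : ∃ k, d = k + 1 := ⟨d - 1, by omega⟩
    have hk : 2 ≤ k := by omega
    have hk0 : (2 : ℝ) ≤ k := by exact_mod_cast hk
    push_cast at *
    set p := (E + 1) / (2 * k) with hp
    have hp0 : 0 < p := by positivity
    have hp1 : p ≤ 1 / 2 := by
      rw [hp, div_le_div_iff₀ (by positivity) (by norm_num)]
      linarith
    refine ⟨fun j => if j = 0 then 1 / 2 else p, fun j => if j = 0 then false else true,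
      fun j => ?_, ?_, ?_⟩
    · by_cases hj : j = 0
      · simp only [hj, if_true]
        refine ⟨?_, by linarith⟩
        apply one_div_le_one_div_of_le (by norm_num)
        linarith
      · simp only [hj, if_false]
        refine ⟨?_, by linarith⟩
        rw [hp, div_le_div_iff₀ (by positivity) (by positivity)]
        nlinarith
    · rw [Fin.sum_univ_succ]
      simp only [if_true, Fin.succ_ne_zero, if_false, sg, Finset.sum_const, Finset.card_univ,
        Fintype.card_fin, nsmul_eq_mul]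
      have h1 : (2 : ℝ) ≤ 1 / p := by
        rw [le_div_iff₀ hp0]
        linarith
      simp only [Bool.false_eq_true, if_false, one_mul]
      nlinarith
    · rw [Fin.sum_univ_succ]
      simp only [if_true, Fin.succ_ne_zero, if_false, sg, Finset.sum_const, Finset.card_univ,
        Fintype.card_fin, nsmul_eq_mul]
      simp only [Bool.false_eq_true, if_false, one_mul]
      rw [hp]
      field_simp
      ring

/-- the base points -/
theorem pts (d : ℕ) (δ : ℝ) (hd : 3 ≤ d) (hδ : 0 < δ) : ∃ r κ c0 : ℝ, 0 < r ∧ r ≤ 1 / 2 ∧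
    0 < κ ∧ 0 < c0 ∧ ∀ E : ℝ, |E| ≤ 2 * d - δ → ∃ (x : Fin d → ℝ) (ε : Fin d → Bool),
      (∀ j, Bp (x j) r κ) ∧
      ((∀ θ : Fin d → ℝ, (∀ j, θ j ∈ Icc (x j - 2 * r) (x j + 2 * r)) →
        c0 ≤ ∑ j, sg (ε j) * (Real.sin (θ j) ^ 2 / Real.cos (θ j))) ∨
      (∀ θ : Fin d → ℝ, (∀ j, θ j ∈ Icc (x j - 2 * r) (x j + 2 * r)) →
        ∑ j, sg (ε j) * (Real.sin (θ j) ^ 2 / Real.cos (θ j)) ≤ -c0)) ∧
      ∑ j, sg (ε j) * (2 * Real.cos (x j)) = E := by
  have hd0 : (3 : ℝ) ≤ d := by exact_mod_cast hd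
  have hdp : (0 : ℝ) < d := by linarith
  obtain ⟨η, hη⟩ : ∃ η : ℝ, η = min (δ / (2 * d)) (1 / 2) := ⟨_, rfl⟩
  have hη0 : 0 < η := by
    rw [hη]
    exact lt_min (by positivity) (by norm_num)
  have hη2 : η ≤ 1 / 2 := hη ▸ min_le_right _ _
  have hη1 : 2 * d - δ ≤ 2 * d * (1 - η) := by
    have h1 : η ≤ δ / (2 * d) := hη ▸ min_le_left _ _
    rw [le_div_iff₀ (by positivity)] at h1
    linarith
  refine ⟨η / (36 * d ^ 3), min (1 / (4 * d)) (η / 2), η / 2, by positivity, ?_,
    lt_min (by positivity) (by positivity), by positivity, fun E hE => ?_⟩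
  · rw [div_le_iff₀ (by positivity)]
    have : (1 : ℝ) ≤ (d : ℝ) ^ 3 := one_le_pow₀ (by linarith)
    linarith
  · obtain ⟨c, ε, hc, hs, he⟩ := pts_pos hd hη0 hη2 (abs_nonneg E) (hE.trans hη1)
    have hb := fun j => bp_arccos hd hη0 hη2 (hc j).1 (hc j).2
    have hsum : ∀ θ : Fin d → ℝ, (∀ j, θ j ∈ Icc (Real.arccos (c j) - 2 * (η / (36 * d ^ 3)))
        (Real.arccos (c j) + 2 * (η / (36 * d ^ 3)))) →
        η / 2 ≤ ∑ j, sg (ε j) * (Real.sin (θ j) ^ 2 / Real.cos (θ j)) := by
      intro θ hθ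
      have h1 : ∑ j, sg (ε j) * (1 / c j - c j) - ∑ _j : Fin d, η / (2 * d) ≤
          ∑ j, sg (ε j) * (Real.sin (θ j) ^ 2 / Real.cos (θ j)) := by
        rw [← Finset.sum_sub_distrib]
        refine Finset.sum_le_sum fun j _ => ?_
        have h2 := abs_le.1 ((hb j).2 (θ j) (hθ j))
        cases ε j
        · simp only [sg, Bool.false_eq_true, if_false]
          linarith
        · simp only [sg, if_true]
          linarith
      have h2 : ∑ _j : Fin d, η / (2 * d) = η / 2 := by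
        rw [Finset.sum_const, Finset.card_univ, Fintype.card_fin, nsmul_eq_mul]
        field_simp
      rw [h2] at h1
      linarith
    have hcos : ∀ j, Real.cos (Real.arccos (c j)) = c j := fun j =>
      Real.cos_arccos (by
        have : 0 < 1 / (2 * d : ℝ) := by positivity
        linarith [(hc j).1]) (by linarith [(hc j).2])
    rcases le_total 0 E with h0 | h0
    · refine ⟨fun j => Real.arccos (c j), ε, fun j => (hb j).1, Or.inl hsum, ?_⟩
      simp only [hcos]
      rw [he, abs_of_nonneg h0]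
    · refine ⟨fun j => Real.arccos (c j), fun j => !(ε j), fun j => (hb j).1,
        Or.inr fun θ hθ => ?_, ?_⟩
      · have h1 := hsum θ hθ
        have h2 : ∑ j, sg (!(ε j)) * (Real.sin (θ j) ^ 2 / Real.cos (θ j)) =
            -∑ j, sg (ε j) * (Real.sin (θ j) ^ 2 / Real.cos (θ j)) := by
          rw [← Finset.sum_neg_distrib]
          refine Finset.sum_congr rfl fun j _ => ?_
          cases ε j <;> simp [sg]
        rw [h2]
        linarith
      · simp only [hcos]
        have h2 : ∑ j, sg (!(ε j)) * (2 * c j) = -∑ j, sg (ε j) * (2 * c j) := by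
          rw [← Finset.sum_neg_distrib]
          refine Finset.sum_congr rfl fun j _ => ?_
          cases ε j <;> simp [sg]
        rw [h2, he, abs_of_nonpos h0, neg_neg]

end Pool.Agent.LE.H28V
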